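import Pool.Agent.Helper8.SPV.PDefs

/-! # Consequences of the laws of places -/

set_option autoImplicit false

namespace Pool.Agent.Helper8.SPV

namespace Pl

variable {k K : Type} [Field k] [Field K] [Algebra k K] {p : Pl k K}

theorem ord_zero : p.ord 0 = 0 := by
  unfold ord
  rw [dif_neg]
  rintro ⟨n, h, -⟩
  exact h (zero_mul _)

namespace Laws

variable (h : p.Laws)

include h

theorem z_ne : p.z ≠ 0 := h.unif.1

theorem ord_one : p.ord 1 = 0 := by
  have := h.ord_const 1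
  rwa [map_one] at this

theorem ord_neg_one : p.ord (-1) = 0 := by
  have := h.ord_const (-1)
  rwa [map_neg, map_one] at this

theorem ord_neg (f : K) : p.ord (-f) = p.ord f := by
  by_cases hf : f = 0
  · rw [hf, neg_zero]
  · rw [show -f = (-1) * f by ring, h.ord_mul _ _ (by simp) hf, h.ord_neg_one, zero_add]

theorem ord_inv (f : K) : p.ord f⁻¹ = -p.ord f := by
  by_cases hf : f = 0
  · rw [hf, inv_zero, ord_zero, neg_zero]
  · have := h.ord_mul f f⁻¹ hf (inv_ne_zero hf)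
    rw [mul_inv_cancel₀ hf, h.ord_one] at this
    omega

theorem ord_div (f g : K) (hf : f ≠ 0) (hg : g ≠ 0) : p.ord (f / g) = p.ord f - p.ord g := by
  rw [div_eq_mul_inv, h.ord_mul _ _ hf (inv_ne_zero hg), h.ord_inv]
  ring

theorem ord_pow (f : K) (n : ℕ) : p.ord (f ^ n) = n * p.ord f := by
  by_cases hf : f = 0
  · rcases n with _ | n
    · rw [pow_zero, h.ord_one]; simp
    · rw [hf, zero_pow (Nat.succ_ne_zero n), ord_zero, mul_zero]
  · induction n with
    | zero => rw [pow_zero, h.ord_one]; simp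
    | succ n ih => rw [pow_succ, h.ord_mul _ _ (pow_ne_zero n hf) hf, ih]; push_cast; ring

theorem ord_zpow (f : K) (n : ℤ) : p.ord (f ^ n) = n * p.ord f := by
  rcases n with n | n
  · have := h.ord_pow f n
    simpa using this
  · rw [zpow_negSucc, h.ord_inv, h.ord_pow, Int.negSucc_eq]
    push_cast
    ring

theorem ord_const_mul (c : k) (hc : c ≠ 0) (f : K) : p.ord (algebraMap k K c * f) = p.ord f := by
  by_cases hf : f = 0
  · rw [hf, mul_zero]
  · rw [h.ord_mul _ _ ((map_ne_zero _).2 hc) hf, h.ord_const, zero_add]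

theorem ord_natCast [CharZero k] (n : ℕ) : p.ord (n : K) = 0 := by
  have := h.ord_const (n : k)
  rwa [map_natCast] at this

theorem ord_add_of_lt (f g : K) (hf : f ≠ 0) (hg : g = 0 ∨ p.ord f < p.ord g) :
    f + g ≠ 0 ∧ p.ord (f + g) = p.ord f := by
  rcases hg with rfl | hg
  · exact ⟨by rwa [add_zero], by rw [add_zero]⟩
  · by_cases hg0 : g = 0
    · subst hg0
      exact ⟨by rwa [add_zero], by rw [add_zero]⟩
    · have hfg : f + g ≠ 0 := by
        intro e
        rw [show g = -f by linear_combination e, h.ord_neg] at hg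
        exact lt_irrefl _ hg
      refine ⟨hfg, ?_⟩
      have h1 := h.ord_add f g hf hg0 hfg
      have h2 := h.ord_add (f + g) (-g) hfg (neg_ne_zero.2 hg0) (by simpa using hf)
      rw [h.ord_neg, show f + g + -g = f by ring] at h2
      omega

/-! ### `Ge` -/

theorem ge_zero (n : ℤ) : p.Ge n 0 := Or.inl rfl

theorem ge_iff (n : ℤ) (f : K) (hf : f ≠ 0) : p.Ge n f ↔ n ≤ p.ord f := by
  unfold Ge
  simp [hf]

theorem ge_mono {n m : ℤ} {f : K} (hf : p.Ge n f) (hm : m ≤ n) : p.Ge m f :=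
  hf.imp id fun h1 => hm.trans h1

theorem ge_add {n : ℤ} {f g : K} (hf : p.Ge n f) (hg : p.Ge n g) : p.Ge n (f + g) := by
  by_cases hf0 : f = 0
  · rwa [hf0, zero_add]
  by_cases hg0 : g = 0
  · rwa [hg0, add_zero]
  by_cases hfg : f + g = 0
  · exact Or.inl hfg
  · have := h.ord_add f g hf0 hg0 hfg
    rw [h.ge_iff _ _ hf0] at hf
    rw [h.ge_iff _ _ hg0] at hg
    exact Or.inr (by omega)

theorem ge_neg {n : ℤ} {f : K} (hf : p.Ge n f) : p.Ge n (-f) := by
  rcases hf with rfl | hf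
  · rw [neg_zero]; exact h.ge_zero n
  · exact Or.inr (by rwa [h.ord_neg])

theorem ge_sub {n : ℤ} {f g : K} (hf : p.Ge n f) (hg : p.Ge n g) : p.Ge n (f - g) := by
  rw [sub_eq_add_neg]
  exact h.ge_add hf (h.ge_neg hg)

theorem ge_sum {n : ℤ} {ι : Type*} (s : Finset ι) (f : ι → K) (hf : ∀ i ∈ s, p.Ge n (f i)) :
    p.Ge n (∑ i ∈ s, f i) := by
  classical
  induction s using Finset.induction_on with
  | empty => rw [Finset.sum_empty]; exact h.ge_zero n
  | insert a s ha ih =>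
    rw [Finset.sum_insert ha]
    exact h.ge_add (hf a (Finset.mem_insert_self a s))
      (ih fun i hi => hf i (Finset.mem_insert_of_mem hi))

theorem ge_mul {n m : ℤ} {f g : K} (hf : p.Ge n f) (hg : p.Ge m g) : p.Ge (n + m) (f * g) := by
  by_cases hf0 : f = 0
  · rw [hf0, zero_mul]; exact h.ge_zero _
  by_cases hg0 : g = 0
  · rw [hg0, mul_zero]; exact h.ge_zero _
  rw [h.ge_iff _ _ hf0] at hf
  rw [h.ge_iff _ _ hg0] at hg
  exact Or.inr (by rw [h.ord_mul _ _ hf0 hg0]; omega)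

theorem ge_const (c : k) : p.Ge 0 (algebraMap k K c) := Or.inr (by rw [h.ord_const])

theorem ge_smul {n : ℤ} {f : K} (c : k) (hf : p.Ge n f) : p.Ge n (c • f) := by
  rw [Algebra.smul_def, show n = 0 + n by ring]
  exact h.ge_mul (h.ge_const c) hf

/-- `f ∈ O` iff the order is nonnegative -/
theorem mem_iff_ge (f : K) : f ∈ p.O ↔ p.Ge 0 f := by
  by_cases hf : f = 0
  · rw [hf]
    exact ⟨fun _ => h.ge_zero 0, fun _ => p.O.zero_mem⟩
  · rw [h.mem_iff f hf, h.ge_iff _ _ hf]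

theorem U_iff (f : K) : p.U f ↔ f ≠ 0 ∧ p.ord f = 0 := by
  unfold U
  constructor
  · rintro ⟨h0, h1, h2⟩
    rw [h.mem_iff _ h0] at h1
    rw [h.mem_iff _ (inv_ne_zero h0), h.ord_inv] at h2
    exact ⟨h0, by omega⟩
  · rintro ⟨h0, h1⟩
    refine ⟨h0, (h.mem_iff _ h0).2 h1.ge, (h.mem_iff _ (inv_ne_zero h0)).2 ?_⟩
    rw [h.ord_inv]; omega

/-- `f` is in the maximal ideal iff its order is positive -/
theorem M_iff_ge (f : K) : p.M f ↔ p.Ge 1 f := by
  unfold M
  by_cases hf : f = 0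
  · rw [hf]
    exact ⟨fun _ => h.ge_zero 1, fun _ => ⟨p.O.zero_mem, Or.inl rfl⟩⟩
  · rw [h.ge_iff _ _ hf, h.mem_iff f hf, h.mem_iff _ (inv_ne_zero hf), h.ord_inv]
    constructor
    · rintro ⟨h1, h2 | h2⟩
      · exact absurd h2 hf
      · omega
    · intro h1
      exact ⟨by omega, Or.inr (by omega)⟩

theorem unif_iff (f : K) : p.Unif f ↔ f ≠ 0 ∧ p.ord f = 1 := by
  unfold Unif
  constructor
  · rintro ⟨h0, h1, h2⟩
    refine ⟨h0, ?_⟩
    rw [h.M_iff_ge, h.ge_iff _ _ h0] at h1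
    have h3 := h2 p.z h.unif.2.1
    rw [h.mem_iff _ (div_ne_zero h.z_ne h0), h.ord_div _ _ h.z_ne h0, h.ord_z] at h3
    omega
  · rintro ⟨h0, h1⟩
    refine ⟨h0, (h.M_iff_ge f).2 (Or.inr h1.ge), fun g hg => ?_⟩
    rw [h.M_iff_ge] at hg
    rw [h.mem_iff_ge]
    rcases hg with rfl | hg
    · rw [zero_div]; exact h.ge_zero 0
    · by_cases hg0 : g = 0
      · rw [hg0, zero_div]; exact h.ge_zero 0
      · exact Or.inr (by rw [h.ord_div _ _ hg0 h0]; omega)

theorem ge_iff_div (n : ℤ) (f : K) : p.Ge n f ↔ f * p.z ^ (-n) ∈ p.O := by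
  rw [h.mem_iff_ge]
  by_cases hf : f = 0
  · rw [hf, zero_mul]
    exact ⟨fun _ => h.ge_zero 0, fun _ => h.ge_zero n⟩
  · have hz : p.z ^ (-n) ≠ 0 := zpow_ne_zero _ h.z_ne
    rw [h.ge_iff _ _ hf, h.ge_iff _ _ (mul_ne_zero hf hz), h.ord_mul _ _ hf hz, h.ord_zpow,
      h.ord_z]
    constructor <;> intro _ <;> omega

/-- every element of `O` is congruent to a constant -/
theorem res_ge (f : K) (hf : p.Ge 0 f) : ∃ c : k, p.Ge 1 (f - algebraMap k K c) := by
  obtain ⟨c, hc⟩ := h.res f ((h.mem_iff_ge f).2 hf)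
  exact ⟨c, (h.M_iff_ge _).1 hc⟩

/-- a nonzero function is `c z^n +` higher order -/
theorem lead (f : K) (hf : f ≠ 0) :
    ∃ c : k, c ≠ 0 ∧ p.Ge (p.ord f + 1) (f - algebraMap k K c * p.z ^ (p.ord f)) := by
  have hz : p.z ^ (-p.ord f) ≠ 0 := zpow_ne_zero _ h.z_ne
  have h1 : p.ord (f * p.z ^ (-p.ord f)) = 0 := by
    rw [h.ord_mul _ _ hf hz, h.ord_zpow, h.ord_z]; ring
  obtain ⟨c, hc⟩ := h.res_ge (f * p.z ^ (-p.ord f)) (Or.inr h1.ge)
  have hc0 : c ≠ 0 := by
    rintro rfl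
    rw [map_zero, sub_zero, h.ge_iff _ _ (mul_ne_zero hf hz), h1] at hc
    omega
  refine ⟨c, hc0, ?_⟩
  have h2 : f - algebraMap k K c * p.z ^ (p.ord f) =
      (f * p.z ^ (-p.ord f) - algebraMap k K c) * p.z ^ (p.ord f) := by
    rw [sub_mul, mul_assoc, ← zpow_add₀ h.z_ne, neg_add_cancel, zpow_zero, mul_one]
  rw [h2, show p.ord f + 1 = 1 + p.ord f by ring]
  exact h.ge_mul hc (Or.inr (by rw [h.ord_zpow, h.ord_z, mul_one]))

end Laws

end Pl

end Pool.Agent.Helper8.SPV
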