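import Pool.Agent.Helper8.SPV.Stmts
import Pool.Agent.Helper8.SPV.PLib

/-! # Module AGEN -/

set_option autoImplicit false

namespace Pool.Agent.Helper8.SPV

open IntermediateField (adjoin)

/-- algebraic over a smaller field -/
theorem AGEN_alg {k0 k K : Type} [Field k0] [Field k] [Field K] [Algebra k K] [Algebra k0 K]
    {F0 : IntermediateField k0 K} {F1 : IntermediateField k K} (h : ∀ a ∈ F0, a ∈ F1) {X : K}
    (hX : IsAlgebraic F0 X) : IsAlgebraic F1 X := by
  obtain ⟨P, hP, h0⟩ := hX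
  let ι : F0 →+* F1 :=
    { toFun := fun a => ⟨a, h a a.2⟩
      map_one' := rfl
      map_mul' := fun _ _ => rfl
      map_zero' := rfl
      map_add' := fun _ _ => rfl }
  refine ⟨P.map ι, ?_, ?_⟩
  · rwa [Ne, Polynomial.map_eq_zero_iff ι.injective]
  · rw [Polynomial.aeval_def, Polynomial.eval₂_map]
    exact h0

theorem AGEN_sub {k0 k K : Type} [Field k0] [Field k] [Field K] [Algebra k0 k] [Algebra k K]
    [Algebra k0 K] [IsScalarTower k0 k K] (S : Set K) : ∀ a ∈ adjoin k0 S, a ∈ adjoin k S := by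
  intro a ha
  induction ha using IntermediateField.adjoin_induction with
  | mem x hx => exact IntermediateField.subset_adjoin k S hx
  | algebraMap x =>
    rw [IsScalarTower.algebraMap_apply k0 k K]
    exact (adjoin k S).algebraMap_mem _
  | add x y _ _ hx hy => exact add_mem hx hy
  | inv x _ hx => exact inv_mem hx
  | mul x y _ _ hx hy => exact mul_mem hx hy

theorem st_AGEN (hZ1 : ST_Z1) (hZ2 : ST_Z2) (hA2 : ST_A2) (hA3 : ST_A3) (hA4 : ST_A4)
    (hA5 : ST_A5) (hPL4 : ST_PL4) (hCORR : ST_CORR) (hTR : ST_TR) : ST_AGEN := by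
  intro k0 k K _ _ _ _ _ _ _ _ _ _ b T W X Y d hbd hff hp hT hgen
  have hκ : 0 ≤ Pl.kap d.δ := by
    unfold Pl.kap
    exact finsum_nonneg fun p => (hCORR k0 k K b T W d hff hp.e1 hT p).2.2.1
  by_contra hlt
  push Not at hlt
  have hlt2 : 2 * Pl.kap d.δ < Pl.poles (k := k) T := by omega
  have hz := hZ1 k0 k K b T W X Y d hbd hff hp hT hlt2
  have hz2 := hZ2 k0 k K b T W X Y d hbd hff hp hT hlt2 hz
  obtain ⟨hX, hY⟩ := hA2 k0 k K b T W X Y d hbd hff hp hT hz hz2
  have hU := hTR k0 k K b hbd T hT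
  have he := hA4 k0 k K b T W X Y d hbd hff hp hT hX hY
  have hX' : IsAlgebraic (adjoin k {Qf b T}) X := AGEN_alg (AGEN_sub _) hX
  have hY' : IsAlgebraic (adjoin k {Qf b T}) Y := AGEN_alg (AGEN_sub _) hY
  have hUT : Qf b T ∈ adjoin k {T} := by
    unfold Qf
    exact sum_mem fun j _ => mul_mem ((adjoin k {T}).algebraMap_mem _)
      (pow_mem (IntermediateField.mem_adjoin_simple_self k T) _)
  obtain ⟨-, h5⟩ := hA5 k K T W (Qf b T) X Y hU hUT hp.e1 hgen hX' hY'
  have h4 := hPL4 k K hff T hT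
  have hfd : FiniteDimensional (adjoin k {Qf b T}) (adjoin (adjoin k {Qf b T}) {X, Y}) := by
    apply IntermediateField.finiteDimensional_adjoin
    rintro x (rfl | rfl)
    · exact hX'.isIntegral
    · exact hY'.isIntegral
  have hpos : 0 < Module.finrank (adjoin k {Qf b T}) (adjoin (adjoin k {Qf b T}) {X, Y}) :=
    Module.finrank_pos
  have hne : Module.finrank (adjoin k {Qf b T}) (adjoin (adjoin k {Qf b T}) {X, Y}) ≠ 1 := by
    intro h1
    rw [IntermediateField.finrank_eq_one_iff, IntermediateField.adjoin_eq_bot_iff] at h1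
    have hXm := h1 (Set.mem_insert _ _)
    have hYm := h1 (Set.mem_insert_of_mem _ rfl)
    rw [SetLike.mem_coe, IntermediateField.mem_bot] at hXm hYm
    obtain ⟨x, hx⟩ := hXm
    obtain ⟨y, hy⟩ := hYm
    refine hA3 k K (Qf b T) X Y hU hp.e2 ?_ ?_
    · rw [← hx]; exact x.2
    · rw [← hy]; exact y.2
  omega

end Pool.Agent.Helper8.SPV
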