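import Pool.Agent.Helper8.SPV.Stmts
import Pool.Agent.Helper8.SPV.PLib

/-! # Modules BFIN and ALG -/

set_option autoImplicit false

namespace Pool.Agent.Helper8.SPV

/-- a derivation which kills `k` is `k`-linear -/
theorem BFIN_lin {k K : Type} [Field k] [Field K] [Algebra k K] (D : Derivation ℤ K K)
    (h : ∀ c : k, D (algebraMap k K c) = 0) : ∃ D' : Derivation k K K, ∀ f, D' f = D f := by
  refine ⟨{ toFun := D, map_add' := map_add D, map_smul' := ?_, map_one_eq_zero' := ?_,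
            leibniz' := ?_ }, fun f => rfl⟩
  · intro c f
    rw [Algebra.smul_def, D.leibniz, h c, smul_zero, add_zero, RingHom.id_apply,
      Algebra.smul_def, Algebra.smul_def]
    rfl
  · exact D.map_one_eq_zero
  · intro a b
    exact D.leibniz a b

/-- existence of a nonzero derivation -/
theorem BFIN_ex (hD : ST_DEREXT) {k K : Type} [Field k] [CharZero k] [Field K] [Algebra k K]
    (hff : IsFF k K) : ∃ δ : Derivation k K K, δ ≠ 0 := by
  obtain ⟨x, hx, -⟩ := hff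
  obtain ⟨D, h1, h2⟩ := (hD k K (0 : Derivation ℤ k K)).2 x hx 1
  obtain ⟨D', h3⟩ := BFIN_lin (k := k) D (fun c => by rw [h1]; rfl)
  refine ⟨D', ?_⟩
  rintro rfl
  have := h3 x
  rw [h2] at this
  exact zero_ne_one this

theorem BFIN_W {k K : Type} [Field k] [CharZero k] [Field K] [Algebra k K] {T W : K}
    (hT : Transcendental k T) (hE : W ^ 2 = T ^ 3 + 1) : W ≠ 0 := by
  rintro rfl
  apply hT
  have h1 : T ^ 3 + 1 = 0 := by rw [← hE]; ring
  refine ⟨Polynomial.X ^ 3 + 1, ?_, ?_⟩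
  · intro h
    have := congrArg (fun P => Polynomial.coeff P 0) h
    simp at this
  · simpa using h1

theorem st_BFIN (hDE : ST_DEREXT) (hB1 : ST_B1) (hWR : ST_WREG) (hB2 : ST_B2) (hU : ST_ULT) :
    ST_BFIN := by
  intro k K _ _ _ _ _ hff p t0 w0 B
  by_contra hinf
  obtain ⟨δ, hδ⟩ := BFIN_ex hDE hff
  have hinf' := Set.Infinite.natEmbedding _ hinf
  obtain ⟨H, hH, hHf⟩ := hB1 k K hff B
  obtain ⟨hr1, ⟨V, hV, hVf⟩, hr3⟩ := hWR k K hff δ hδ
  let v : ℕ → K × K := fun i => (hinf' i).1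
  have hv : ∀ i, (v i).2 ^ 2 = (v i).1 ^ 3 + 1 ∧ Transcendental k (v i).1 ∧
      Pl.poles (k := k) (v i).1 ≤ B ∧ Pl.poles (k := k) (v i).2 ≤ B ∧
      p.M ((v i).1 - algebraMap k K t0) ∧ p.M ((v i).2 - algebraMap k K w0) := fun i =>
    (hinf' i).2
  have hvi : Function.Injective v := fun i j hij => hinf'.injective (Subtype.ext hij)
  obtain ⟨τ, h1, h2⟩ := hU k K δ H V (fun i => (v i).1) (fun i => (v i).2) (fun i => (hv i).1)
    (fun i => BFIN_W (hv i).2.1 (hv i).1) (fun i => hHf _ (hv i).2.2.1)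
    (fun i => hHf _ (hv i).2.2.2.1) (fun i => (hVf _).2 (hr1 _ _ (hv i).1 (hv i).2.1)) (by
      intro i j hij
      obtain ⟨h3, h4⟩ := hB2 k K hff δ hδ p t0 w0 _ _ _ _ (hv i).1 (hv j).1 (hv i).2.1 (hv j).2.1
        hij (hv i).2.2.2.2.1 (hv j).2.2.2.2.1 (hv i).2.2.2.2.2 (hv j).2.2.2.2.2
      exact hvi (Prod.ext h3 h4))
  obtain ⟨c, hc⟩ := hr3 τ ((hVf _).1 h1)
  apply h2
  rw [hc, δ.map_algebraMap]

theorem ALG_const {k K : Type} [Field k] [IsAlgClosed k] [Field K] [Algebra k K] {T : K}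
    (hT : IsAlgebraic k T) : ∃ c : k, algebraMap k K c = T := by
  have h1 := hT.isIntegral
  have h2 := IsAlgClosed.degree_eq_one_of_irreducible k (minpoly.irreducible h1)
  exact minpoly.mem_range_of_degree_eq_one k T h2

theorem st_ALG (hAB : ST_AB) (hBF : ST_BFIN) : ST_ALG := by
  intro k0 k K _ _ _ _ _ _ _ _ b hbd hff p t0 w0
  obtain ⟨B, hB⟩ := hAB k0 k K b hbd hff
  have h1 := hBF k K hff p t0 w0 B
  refine ((h1.image Prod.fst).union (Set.finite_singleton (algebraMap k K t0))).subset ?_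
  rintro T ⟨W, X, Y, hp, h2, h3⟩
  by_cases hT : Transcendental k T
  · left
    obtain ⟨h4, h5⟩ := hB T W X Y hp hT
    exact ⟨(T, W), ⟨hp.e1, hT, h4, h5, h2, h3⟩, rfl⟩
  · right
    obtain ⟨c, rfl⟩ := ALG_const (not_not.1 hT)
    rw [Set.mem_singleton_iff]
    rw [← map_sub] at h2
    obtain ⟨h6, h7 | h7⟩ := h2
    · rw [map_sub, sub_eq_zero] at h7
      exact h7
    · exfalso
      apply h7
      rw [← map_inv₀]
      exact p.mem _

end Pool.Agent.Helper8.SPV
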