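import Pool.Agent.Helper8.SPV.Stmts
import Pool.Agent.Helper8.SPV.PLib

/-! # Module EINF -/

set_option autoImplicit false

namespace Pool.Agent.Helper8.SPV

theorem EINF_sum10 {L : Type} [AddCommMonoid L] (f : Fin 10 → L) :
    ∑ j, f j = f 0 + f 1 + f 2 + f 3 + f 4 + f 5 + f 6 + f 7 + f 8 + f 9 := by
  rw [Fin.sum_univ_castSucc, Fin.sum_univ_castSucc, Fin.sum_univ_eight]
  rfl

theorem st_EINF (hPL1 : ST_PL1) : ST_EINF := by
  intro k K _ _ _ _ _ b T W δ hff hE hT hδT hδW p hTp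
  have h := hPL1 k K hff p
  have hc0 : CharZero K := charZero_of_injective_algebraMap (algebraMap k K).injective
  have hT0 : T ≠ 0 := by rintro rfl; exact hTp p.O.zero_mem
  have hTo : p.ord T < 0 := by
    rw [h.mem_iff T hT0] at hTp
    omega
  have hW0 : W ≠ 0 := by
    rintro rfl
    have h1 := h.ord_add_of_lt (T ^ 3) 1 (pow_ne_zero 3 hT0) (Or.inr (by
      rw [h.ord_pow, h.ord_one]; push_cast; omega))
    exact h1.1 (by rw [← hE]; ring)
  -- orders of `T` and `W`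
  have hW2 : 2 * p.ord W = 3 * p.ord T := by
    have h1 := h.ord_add_of_lt (T ^ 3) 1 (pow_ne_zero 3 hT0) (Or.inr (by
      rw [h.ord_pow, h.ord_one]; push_cast; omega))
    have h2 := h.ord_pow W 2
    rw [hE, h1.2, h.ord_pow] at h2
    push_cast at h2
    omega
  obtain ⟨e, he⟩ : ∃ e : ℤ, p.ord T = -2 * e := ⟨-p.ord T / 2, by omega⟩
  have heW : p.ord W = -3 * e := by omega
  have he1 : 1 ≤ e := by omega
  have hs0 : T / W ≠ 0 := div_ne_zero hT0 hW0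
  have hs : p.ord (T / W) = e := by
    rw [h.ord_div _ _ hT0 hW0, he, heW]; ring
  have hr : p.ord (1 / W) = 3 * e := by
    rw [h.ord_div _ _ one_ne_zero hW0, h.ord_one, heW]; ring
  have hr0 : 1 / W ≠ 0 := div_ne_zero one_ne_zero hW0
  have hδs : δ (T / W) = -1 + 3 * (1 / W) ^ 2 := by
    rw [Derivation.leibniz_div, hδT, hδW, smul_eq_mul, smul_eq_mul, smul_eq_mul]
    field_simp
    linear_combination (3 : K) * hE
  have hUδ : p.U (δ (T / W)) := by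
    rw [h.U_iff, hδs]
    have h3 : (3 : K) ≠ 0 := by norm_num
    have h3o : p.ord (3 : K) = 0 := by exact_mod_cast h.ord_natCast 3
    have h4 := h.ord_add_of_lt (-1 : K) (3 * (1 / W) ^ 2) (by simp) (Or.inr (by
      rw [h.ord_neg_one, h.ord_mul _ _ h3 (pow_ne_zero 2 hr0), h3o, h.ord_pow, hr]
      push_cast; omega))
    exact ⟨h4.1, h4.2.trans h.ord_neg_one⟩
  refine ⟨e, he1, he, heW, hs, hδs, hUδ, ?_⟩
  intro hb9
  have hb9K : algebraMap k K (b 9) ≠ 0 := (map_ne_zero _).2 hb9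
  have hTi : p.ord T⁻¹ = 2 * e := by rw [h.ord_inv, he]; ring
  have hTi0 : T⁻¹ ≠ 0 := inv_ne_zero hT0
  have hTi1 : p.Ge 1 T⁻¹ := Or.inr (by omega)
  have hTiO : p.Ge 0 T⁻¹ := Or.inr (by omega)
  have hpow : ∀ n : ℕ, p.Ge 0 (T⁻¹ ^ n) := fun n => Or.inr (by
    rw [h.ord_pow, hTi]; positivity)
  -- `Q(T) = T^9 (b_9 + m)`
  have hQ : Qf b T = T ^ 9 * (algebraMap k K (b 9) + T⁻¹ * (algebraMap k K (b 8) +
      algebraMap k K (b 7) * T⁻¹ + algebraMap k K (b 6) * T⁻¹ ^ 2 + algebraMap k K (b 5) * T⁻¹ ^ 3 +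
      algebraMap k K (b 4) * T⁻¹ ^ 4 + algebraMap k K (b 3) * T⁻¹ ^ 5 +
      algebraMap k K (b 2) * T⁻¹ ^ 6 + algebraMap k K (b 1) * T⁻¹ ^ 7 +
      algebraMap k K (b 0) * T⁻¹ ^ 8)) := by
    unfold Qf
    rw [EINF_sum10]
    simp only [Fin.val_zero, pow_zero, Fin.val_one, pow_one, Fin.val_two,
      show ((3 : Fin 10) : ℕ) = 3 from rfl, show ((4 : Fin 10) : ℕ) = 4 from rfl,
      show ((5 : Fin 10) : ℕ) = 5 from rfl, show ((6 : Fin 10) : ℕ) = 6 from rfl,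
      show ((7 : Fin 10) : ℕ) = 7 from rfl, show ((8 : Fin 10) : ℕ) = 8 from rfl,
      show ((9 : Fin 10) : ℕ) = 9 from rfl]
    field_simp
    ring
  have hQd : Qd b T = T ^ 8 * (9 * algebraMap k K (b 9) + T⁻¹ * (8 * algebraMap k K (b 8) +
      7 * algebraMap k K (b 7) * T⁻¹ + 6 * algebraMap k K (b 6) * T⁻¹ ^ 2 +
      5 * algebraMap k K (b 5) * T⁻¹ ^ 3 +
      4 * algebraMap k K (b 4) * T⁻¹ ^ 4 + 3 * algebraMap k K (b 3) * T⁻¹ ^ 5 +
      2 * algebraMap k K (b 2) * T⁻¹ ^ 6 + algebraMap k K (b 1) * T⁻¹ ^ 7)) := by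
    unfold Qd
    rw [EINF_sum10]
    simp only [Fin.val_zero, pow_zero, Fin.val_one, pow_one, Fin.val_two,
      show ((3 : Fin 10) : ℕ) = 3 from rfl, show ((4 : Fin 10) : ℕ) = 4 from rfl,
      show ((5 : Fin 10) : ℕ) = 5 from rfl, show ((6 : Fin 10) : ℕ) = 6 from rfl,
      show ((7 : Fin 10) : ℕ) = 7 from rfl, show ((8 : Fin 10) : ℕ) = 8 from rfl,
      show ((9 : Fin 10) : ℕ) = 9 from rfl]
    norm_num
    field_simp
    ring
  have hcn : ∀ n : ℕ, p.Ge 0 (n : K) := fun n => by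
    have := h.ge_const (n : k)
    rwa [map_natCast] at this
  have hg : ∀ (c : k) (n : ℕ), p.Ge 0 (algebraMap k K c * T⁻¹ ^ n) := fun c n => by
    have := h.ge_mul (h.ge_const c) (hpow n)
    rwa [add_zero] at this
  have hg' : ∀ (m : ℕ) (c : k) (n : ℕ), p.Ge 0 ((m : K) * algebraMap k K c * T⁻¹ ^ n) :=
    fun m c n => by
    have := h.ge_mul (h.ge_mul (hcn m) (h.ge_const c)) (hpow n)
    simpa using this
  -- the two tails
  set q1 := algebraMap k K (b 8) +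
      algebraMap k K (b 7) * T⁻¹ + algebraMap k K (b 6) * T⁻¹ ^ 2 + algebraMap k K (b 5) * T⁻¹ ^ 3 +
      algebraMap k K (b 4) * T⁻¹ ^ 4 + algebraMap k K (b 3) * T⁻¹ ^ 5 +
      algebraMap k K (b 2) * T⁻¹ ^ 6 + algebraMap k K (b 1) * T⁻¹ ^ 7 +
      algebraMap k K (b 0) * T⁻¹ ^ 8 with hq1
  set q2 := 8 * algebraMap k K (b 8) +
      7 * algebraMap k K (b 7) * T⁻¹ + 6 * algebraMap k K (b 6) * T⁻¹ ^ 2 +
      5 * algebraMap k K (b 5) * T⁻¹ ^ 3 +
      4 * algebraMap k K (b 4) * T⁻¹ ^ 4 + 3 * algebraMap k K (b 3) * T⁻¹ ^ 5 +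
      2 * algebraMap k K (b 2) * T⁻¹ ^ 6 + algebraMap k K (b 1) * T⁻¹ ^ 7 with hq2
  have hq1g : p.Ge 0 q1 := by
    rw [hq1]
    refine h.ge_add (h.ge_add (h.ge_add (h.ge_add (h.ge_add (h.ge_add (h.ge_add (h.ge_add ?_ ?_)
      (hg _ _)) (hg _ _)) (hg _ _)) (hg _ _)) (hg _ _)) (hg _ _)) (hg _ _)
    · exact h.ge_const _
    · simpa using hg (b 7) 1
  have hq2g : p.Ge 0 q2 := by
    rw [hq2]
    refine h.ge_add (h.ge_add (h.ge_add (h.ge_add (h.ge_add (h.ge_add (h.ge_add ?_ ?_)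
      ?_) ?_) ?_) ?_) ?_) (hg _ _)
    · simpa using hg' 8 (b 8) 0
    · simpa using hg' 7 (b 7) 1
    · simpa using hg' 6 (b 6) 2
    · simpa using hg' 5 (b 5) 3
    · simpa using hg' 4 (b 4) 4
    · simpa using hg' 3 (b 3) 5
    · simpa using hg' 2 (b 2) 6
  have hm1 : p.Ge 1 (T⁻¹ * q1) := by
    have := h.ge_mul hTi1 hq1g
    rwa [add_zero] at this
  have hm2 : p.Ge 1 (T⁻¹ * q2) := by
    have := h.ge_mul hTi1 hq2g
    rwa [add_zero] at this
  have hcase : ∀ (c m : K), c ≠ 0 → p.ord c = 0 → p.Ge 1 m → c + m ≠ 0 ∧ p.ord (c + m) = 0 := by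
    intro c m hc hco hm
    have := h.ord_add_of_lt c m hc (hm.imp id fun h1 => by omega)
    exact ⟨this.1, this.2.trans hco⟩
  have hA := hcase (algebraMap k K (b 9)) _ hb9K (h.ord_const _) hm1
  have h9 : (9 : K) ≠ 0 := by norm_num
  have h9o : p.ord (9 : K) = 0 := by exact_mod_cast h.ord_natCast 9
  have hB := hcase (9 * algebraMap k K (b 9)) _ (mul_ne_zero h9 hb9K)
    (by rw [h.ord_mul _ _ h9 hb9K, h9o, h.ord_const, add_zero]) hm2
  refine ⟨?_, ?_, ?_⟩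
  · -- `s^18 Q(T) = (s² T)^9 (b_9 + m)`, `s² T = 1 - 1/W²`
    rw [h.M_iff_ge]
    have h5 : (T / W) ^ 18 * Qf b T = (1 - (1 / W) ^ 2) ^ 9 *
        (algebraMap k K (b 9) + T⁻¹ * q1) := by
      rw [hQ]
      have h6 : (T / W) ^ 2 * T = 1 - (1 / W) ^ 2 := by
        field_simp
        linear_combination -hE
      rw [← h6]
      ring
    rw [h5]
    -- everything is congruent mod M
    have hu : p.Ge 1 ((1 / W) ^ 2) := Or.inr (by rw [h.ord_pow, hr]; push_cast; omega)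
    have h7 : ∀ n : ℕ, p.Ge 1 ((1 - (1 / W) ^ 2) ^ n - 1) := by
      intro n
      induction n with
      | zero => rw [pow_zero, sub_self]; exact h.ge_zero 1
      | succ n ih =>
        have h8 : (1 - (1 / W) ^ 2) ^ (n + 1) - 1 = ((1 - (1 / W) ^ 2) ^ n - 1) -
            (1 / W) ^ 2 * (((1 - (1 / W) ^ 2) ^ n - 1) + 1) := by ring
        rw [h8]
        refine h.ge_sub ih ?_
        have := h.ge_mul hu (h.ge_add (h.ge_mono ih (by omega : (0 : ℤ) ≤ 1))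
          (show p.Ge 0 1 from Or.inr (by rw [h.ord_one])))
        rwa [add_zero] at this
    have h10 : (1 - (1 / W) ^ 2) ^ 9 * (algebraMap k K (b 9) + T⁻¹ * q1) - algebraMap k K (b 9) =
        ((1 - (1 / W) ^ 2) ^ 9 - 1) * (algebraMap k K (b 9) + T⁻¹ * q1) + T⁻¹ * q1 := by ring
    rw [h10]
    refine h.ge_add ?_ hm1
    have := h.ge_mul (h7 9) (h.ge_add (h.ge_const (b 9)) (h.ge_mono hm1 (by omega : (0 : ℤ) ≤ 1)))
    rwa [add_zero] at this
  · rw [hQ, h.ord_mul _ _ (pow_ne_zero 9 hT0) hA.1, hA.2, h.ord_pow, he]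
    push_cast; ring
  · rw [hQd, h.ord_mul _ _ (pow_ne_zero 8 hT0) hB.1, hB.2, h.ord_pow, he]
    push_cast; ring

end Pool.Agent.Helper8.SPV
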