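import Pool.Agent.Helper8.SPV.Stmts

/-! # Module LOC: the local lemma -/

set_option autoImplicit false

namespace Pool.Agent.Helper8.SPV

theorem LOC_mul_inv {K : Type} [Field K] {O : ValuationSubring K} {a c : K} (hc : c ≠ 0)
    (hc' : c⁻¹ ∈ O) (h : a * c ∈ O) : a ∈ O := by
  have := O.mul_mem _ _ h hc'
  rwa [mul_assoc, mul_inv_cancel₀ hc, mul_one] at this

/-- if `f ∉ O` then `f⁻¹ ∈ O` -/
theorem LOC_inv {K : Type} [Field K] {O : ValuationSubring K} {a : K} (h : a ∉ O) : a⁻¹ ∈ O :=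
  (O.mem_or_inv_mem a).resolve_left h

/-- `1 - f` is a unit if `f` is in the maximal ideal -/
theorem LOC_unit {K : Type} [Field K] {O : ValuationSubring K} {f : K} (hf : f ∈ O)
    (hf' : f = 0 ∨ f⁻¹ ∉ O) : 1 - f ≠ 0 ∧ (1 - f)⁻¹ ∈ O := by
  have h1 : O.valuation f < 1 := by
    rcases hf' with rfl | hf'
    · rw [map_zero]; exact zero_lt_one
    · by_contra h
      have h2 : O.valuation f = 1 := le_antisymm ((O.valuation_le_one_iff f).2 hf) (not_lt.1 h)
      apply hf'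
      rw [← O.valuation_le_one_iff, map_inv₀, h2, inv_one]
  have h2 : O.valuation (1 - f) = 1 := by
    have := Valuation.map_sub_eq_of_lt_right O.valuation (x := f) (y := 1) (by rwa [map_one])
    rw [map_one] at this
    rw [← this, ← Valuation.map_neg, neg_sub]
  refine ⟨?_, ?_⟩
  · intro h
    rw [h, map_zero] at h2
    exact zero_ne_one h2
  · rw [← O.valuation_le_one_iff, map_inv₀, h2, inv_one]

theorem st_LOC : ST_LOC := by
  intro K _ O D δ a1 a2 a4 a6 lam psi X Y h2 h3 h2i h3i ha1 ha2 ha4 ha6 hlam hA hB hE hDX hDY hS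
  have h2m : (2 : K) ∈ O := by
    have := O.add_mem _ _ O.one_mem O.one_mem
    rwa [one_add_one_eq_two] at this
  have h3m : (3 : K) ∈ O := by
    have := O.add_mem _ _ h2m O.one_mem
    rwa [show (2 : K) + 1 = 3 by norm_num] at this
  by_cases hX : X ∈ O
  · have hY : Y ∈ O := by
      by_contra hY
      have hYi := LOC_inv hY
      have hY0 : Y ≠ 0 := by rintro rfl; exact hY O.zero_mem
      apply hY
      have h4 : Y = (X ^ 3 + a4 * X + a6) * Y⁻¹ := by
        rw [← hE]; field_simp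
      rw [h4]
      exact O.mul_mem _ _ (O.add_mem _ _ (O.add_mem _ _ (pow_mem hX 3) (O.mul_mem _ _ ha4 hX)) ha6)
        hYi
    have hAX := hA X hX
    have hAY := hA Y hY
    have hBX := hB X hX
    have hBY := hB Y hY
    rcases hS hX with ⟨h0, hi⟩ | ⟨h0, hi⟩ | ⟨h00, h0, hi⟩
    · have h5 : a2 * psi * (2 * Y) ∈ O := by
        have h6 : a2 * psi * (2 * Y) = a2 * (D X + a1 * δ X) - a1 * (a2 * δ X) -
            a2 * (2 * lam * X) := by rw [hDX]; ring
        rw [h6]
        exact sub_mem (sub_mem (mul_mem ha2 hAX) (mul_mem ha1 hBX))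
          (mul_mem ha2 (mul_mem (mul_mem h2m hlam) hX))
      refine LOC_mul_inv (mul_ne_zero h2 h0) ?_ h5
      rw [mul_inv]
      exact mul_mem h2i hi
    · have h5 : a2 * psi * (3 * X ^ 2 + a4) ∈ O := by
        have h6 : a2 * psi * (3 * X ^ 2 + a4) = a2 * (D Y + a1 * δ Y) - a1 * (a2 * δ Y) -
            a2 * (3 * lam * Y) := by rw [hDY]; ring
        rw [h6]
        exact sub_mem (sub_mem (mul_mem ha2 hAY) (mul_mem ha1 hBY))
          (mul_mem ha2 (mul_mem (mul_mem h3m hlam) hY))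
      exact LOC_mul_inv h0 hi h5
    · refine LOC_mul_inv h0 hi ?_
      have h6 : a2 * psi * (2 * Y * δ Y - (3 * X ^ 2 + a4) * δ X) =
          (D X + a1 * δ X) * (a2 * δ Y) - (D Y + a1 * δ Y) * (a2 * δ X) := by
        rw [hDX, hDY, h00]; ring
      rw [h6]
      exact sub_mem (mul_mem hAX hBY) (mul_mem hAY hBX)
  · have hX0 : X ≠ 0 := by rintro rfl; exact hX O.zero_mem
    have hXi := LOC_inv hX
    -- `Y² = X³ (1 - e)`
    obtain ⟨h7, h8⟩ := LOC_unit (O := O) (f := -(a4 * (X⁻¹) ^ 2 + a6 * (X⁻¹) ^ 3))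
      (neg_mem (add_mem (mul_mem ha4 (pow_mem hXi 2)) (mul_mem ha6 (pow_mem hXi 3)))) (by
        by_cases h9 : -(a4 * (X⁻¹) ^ 2 + a6 * (X⁻¹) ^ 3) = 0
        · exact Or.inl h9
        · right
          intro h10
          apply hX
          have h11 : X = -(a4 * X⁻¹ + a6 * (X⁻¹) ^ 2) * (-(a4 * (X⁻¹) ^ 2 + a6 * (X⁻¹) ^ 3))⁻¹ := by
            rw [eq_comm, ← div_eq_mul_inv, div_eq_iff h9]
            field_simp
          rw [h11]
          exact mul_mem (neg_mem (add_mem (mul_mem ha4 hXi) (mul_mem ha6 (pow_mem hXi 2)))) h10)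
    set e := -(a4 * (X⁻¹) ^ 2 + a6 * (X⁻¹) ^ 3) with he
    have hE' : Y ^ 2 = X ^ 3 * (1 - e) := by
      rw [hE, he]; field_simp; ring
    have hY0 : Y ≠ 0 := by
      rintro rfl
      have : X ^ 3 * (1 - e) = 0 := by rw [← hE']; ring
      rcases mul_eq_zero.1 this with h | h
      · exact hX0 (pow_eq_zero_iff (by norm_num) |>.1 h)
      · exact h7 h
    have hY : Y ∉ O := by
      intro hY
      apply hX
      have h12 : X = Y ^ 2 * (X⁻¹) ^ 2 * (1 - e)⁻¹ := by
        rw [hE']; field_simp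
      rw [h12]
      exact mul_mem (mul_mem (pow_mem hY 2) (pow_mem hXi 2)) h8
    have hYi := LOC_inv hY
    -- `Z = X / Y`
    have hZ2 : (X / Y) ^ 2 = X⁻¹ * (1 - e)⁻¹ := by
      rw [div_pow, hE']; field_simp
    have hZ : X / Y ∈ O := by
      by_contra hZ
      have h13 := LOC_inv hZ
      have hZ0 : X / Y ≠ 0 := div_ne_zero hX0 hY0
      apply hZ
      have h14 : X / Y = (X / Y) ^ 2 * (X / Y)⁻¹ := by
        rw [pow_two, mul_assoc, mul_inv_cancel₀ hZ0, mul_one]
      rw [h14, hZ2]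
      exact mul_mem (mul_mem hXi h8) h13
    have hZi : (X / Y)⁻¹ ∉ O := by
      intro h15
      apply hX
      have h16 : X = ((X / Y)⁻¹) ^ 2 * (1 - e)⁻¹ := by
        rw [inv_pow, hZ2, mul_inv, inv_inv, inv_inv]
        field_simp
      rw [h16]
      exact mul_mem (pow_mem h15 2) h8
    have hAZ := hA _ hZ
    have hBZ := hB _ hZ
    have hDZ : D (X / Y) = -lam * (X / Y) - psi * (1 - (2 * a4 * X + 3 * a6) / Y ^ 2) := by
      rw [Derivation.leibniz_div, hDX, hDY]
      have h17 : psi * (3 * X ^ 3 + a4 * X) = psi * (3 * Y ^ 2 - 2 * a4 * X - 3 * a6) := by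
        rw [hE]; ring
      rw [smul_eq_mul, smul_eq_mul, smul_eq_mul]
      field_simp
      linear_combination (-1 : K) * h17
    have hf : (2 * a4 * X + 3 * a6) / Y ^ 2 =
        2 * a4 * (X / Y) * Y⁻¹ + 3 * a6 * Y⁻¹ ^ 2 := by field_simp
    have hfm : (2 * a4 * X + 3 * a6) / Y ^ 2 ∈ O := by
      rw [hf]
      exact add_mem (mul_mem (mul_mem (mul_mem h2m ha4) hZ) hYi)
        (mul_mem (mul_mem h3m ha6) (pow_mem hYi 2))
    obtain ⟨h18, h19⟩ := LOC_unit (O := O) hfm (by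
      by_cases h9 : (2 * a4 * X + 3 * a6) / Y ^ 2 = 0
      · exact Or.inl h9
      · right
        intro h10
        apply hY
        have h20 : Y = (2 * a4 * (X / Y) + 3 * a6 * Y⁻¹) * ((2 * a4 * X + 3 * a6) / Y ^ 2)⁻¹ := by
          rw [eq_comm, ← div_eq_mul_inv, div_eq_iff h9]
          field_simp
        rw [h20]
        exact mul_mem (add_mem (mul_mem (mul_mem h2m ha4) hZ) (mul_mem (mul_mem h3m ha6) hYi)) h10)
    refine LOC_mul_inv h18 h19 ?_
    have h21 : a2 * psi * (1 - (2 * a4 * X + 3 * a6) / Y ^ 2) =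
        -(a2 * (D (X / Y) + a1 * δ (X / Y)) - a1 * (a2 * δ (X / Y)) + a2 * (lam * (X / Y))) := by
      rw [hDZ]; ring
    rw [h21]
    exact neg_mem (add_mem (sub_mem (mul_mem ha2 hAZ) (mul_mem ha1 hBZ))
      (mul_mem ha2 (mul_mem hlam hZ)))

end Pool.Agent.Helper8.SPV
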