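import Pool.Agent.Helper8.SPV.Stmts3
import Pool.Agent.Helper8.SPV.LOC
import Pool.Agent.Helper71.PPProper

/-! # Modules EQ, COVER, IDDES, DPROP -/

set_option autoImplicit false

namespace Pool.Agent.Helper8.SPV

open MvPolynomial

theorem EQ_ne {k L : Type} [Field k] [CharZero k] [Field L] [Algebra k L] {b : Fin 10 → k}
    {t w x y : L} (h : ES b t w x y) : w ≠ 0 ∧ y ≠ 0 := by
  have ht : Transcendental k t := by
    have := h.indep.transcendental 0
    simpa using this
  have hw : w ≠ 0 := by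
    rintro rfl
    apply ht
    have h1 : t ^ 3 + 1 = 0 := by rw [← h.pt.e1]; ring
    refine ⟨Polynomial.X ^ 3 + 1, ?_, ?_⟩
    · intro h
      have := congrArg (fun P => Polynomial.coeff P 0) h
      simp at this
    · simpa using h1
  refine ⟨hw, ?_⟩
  rintro rfl
  have h2 := h.pt.e2
  -- a relation between `t` and `x`
  have h3 : MvPolynomial.aeval ![t, x] ((X 1 ^ 3 + X 1 + ∑ j : Fin 10, C (b j) * X 0 ^ (j : ℕ) :
      MvPolynomial (Fin 2) k)) = 0 := by
    simp only [map_add, map_pow, aeval_X, map_sum, map_mul, Matrix.cons_val_one,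
      Matrix.cons_val_zero, Matrix.cons_val_fin_one]
    have : ∑ j : Fin 10, aeval ![t, x] (C (b j) : MvPolynomial (Fin 2) k) * t ^ (j : ℕ) =
        Qf b t := by
      unfold Qf
      refine Finset.sum_congr rfl fun j _ => ?_
      rw [← algebraMap_eq, AlgHom.commutes]
    rw [this, ← h2]
    ring
  have hinj : Function.Injective (MvPolynomial.aeval (R := k) ![t, x]) := h.indep
  have h4 := hinj (h3.trans (map_zero _).symm)
  -- apply the substitution `X 0 ↦ 0`, `X 1 ↦ Z`
  have h5 := congrArg (MvPolynomial.aeval ![(0 : Polynomial k), Polynomial.X]) h4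
  simp only [map_add, map_pow, aeval_X, map_sum, map_mul, Matrix.cons_val_one,
      Matrix.cons_val_zero, Matrix.cons_val_fin_one, map_zero] at h5
  have h6 := congrArg (fun P => Polynomial.coeff P 3) h5
  have h7 : ∀ j : Fin 10, (aeval ![(0 : Polynomial k), Polynomial.X]
      (C (b j) : MvPolynomial (Fin 2) k) * 0 ^ (j : ℕ)).coeff 3 = 0 := by
    intro j
    rw [← algebraMap_eq, AlgHom.commutes, Polynomial.algebraMap_eq, Polynomial.coeff_C_mul]
    rcases Nat.eq_zero_or_pos (j : ℕ) with hj | hj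
    · rw [hj, pow_zero, Polynomial.coeff_one]; simp
    · rw [zero_pow hj.ne', Polynomial.coeff_zero, mul_zero]
  simp only [Polynomial.coeff_add, Polynomial.finsetSum_coeff, h7, Finset.sum_const_zero,
    Polynomial.coeff_X_pow, Polynomial.coeff_X, Polynomial.coeff_zero] at h6
  simp at h6

theorem EQ_QP {k L : Type} [Field k] [Field L] [Algebra k L] (b : Fin 10 → k) (a : Fin 4 → L) :
    aeval a (QP b) = Qf b (a 0) := by
  unfold QP Qf
  rw [map_sum]
  refine Finset.sum_congr rfl fun j _ => ?_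
  rw [map_mul, map_pow, aeval_X, ← algebraMap_eq, AlgHom.commutes]

theorem EQ_sum10 {L : Type} [AddCommMonoid L] (f : Fin 10 → L) :
    ∑ j, f j = f 0 + f 1 + f 2 + f 3 + f 4 + f 5 + f 6 + f 7 + f 8 + f 9 := by
  rw [Fin.sum_univ_castSucc, Fin.sum_univ_castSucc, Fin.sum_univ_eight]
  rfl

theorem EQ_QI {k L : Type} [Field k] [Field L] [Algebra k L] (b : Fin 10 → k) (a : Fin 4 → L)
    (h1 : a 1 ≠ 0) (h : a 1 - a 0 ^ 3 - a 1 ^ 3 = 0) :
    aeval a (QI b) = a 1 ^ 6 * Qf b (a 0 / a 1) := by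
  have h2 : 1 - a 1 ^ 2 = a 0 ^ 3 / a 1 := by
    rw [eq_div_iff h1]; linear_combination h
  unfold QI Qf
  simp only [map_add, map_mul, map_pow, aeval_X, map_sub, map_one, h2]
  have h3 : ∀ j, aeval a (C (b j) : MvPolynomial (Fin 4) k) = algebraMap k L (b j) := by
    intro j
    rw [← algebraMap_eq, AlgHom.commutes]
  simp only [h3]
  rw [EQ_sum10]
  simp only [Fin.val_zero, pow_zero, Fin.val_one, pow_one, Fin.val_two,
    show ((3 : Fin 10) : ℕ) = 3 from rfl, show ((4 : Fin 10) : ℕ) = 4 from rfl,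
    show ((5 : Fin 10) : ℕ) = 5 from rfl, show ((6 : Fin 10) : ℕ) = 6 from rfl,
    show ((7 : Fin 10) : ℕ) = 7 from rfl, show ((8 : Fin 10) : ℕ) = 8 from rfl,
    show ((9 : Fin 10) : ℕ) = 9 from rfl]
  field_simp

theorem st_EQ : ST_EQ := by
  intro k L _ _ _ _ _ b t w x y h
  obtain ⟨hw, hy⟩ := EQ_ne h
  refine ⟨hw, hy, ?_⟩
  have e1 := h.pt.e1
  have e2 := h.pt.e2
  have e3 : (1 / w) - (t / w) ^ 3 - (1 / w) ^ 3 = 0 := by
    field_simp
    linear_combination e1
  have hQI : ∀ a2 a3 : L, aeval (![t / w, 1 / w, a2, a3] : Fin 4 → L) (QI b) =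
      (1 / w) ^ 6 * Qf b t := by
    intro a2 a3
    have := EQ_QI b (![t / w, 1 / w, a2, a3] : Fin 4 → L) (by simpa using hw) (by simpa using e3)
    rw [this]
    simp only [Matrix.cons_val_zero, Matrix.cons_val_one]
    congr 2
    field_simp
  intro i j
  fin_cases i <;> fin_cases j
  · simp [co, fe, e1]
  · simp [co, fe, EQ_QP, e2]
    ring
  · simp [co, fe, e1]
  · simp only [co, fe, Fin.isValue, Matrix.cons_val_zero, Matrix.cons_val_one, Fin.zero_eta,
      Fin.mk_one, map_sub, map_mul, map_pow, aeval_X, EQ_QP, Matrix.cons_val]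
    field_simp
    linear_combination e2
  · simpa [co, fe] using e3
  · have := hQI (x / w ^ 2) (y / w ^ 3)
    simp only [co, fe, Fin.isValue, Matrix.cons_val_zero, Matrix.cons_val_one, Fin.zero_eta,
      Fin.mk_one, map_sub, map_mul, map_pow, aeval_X, Matrix.cons_val, Fin.reduceFinMk]
    rw [this]
    field_simp
    linear_combination e2
  · simpa [co, fe] using e3
  · have := hQI (x * w / y) (w ^ 3 / y)
    simp only [co, fe, Fin.isValue, Matrix.cons_val_zero, Matrix.cons_val_one, Fin.zero_eta,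
      Fin.mk_one, map_sub, map_mul, map_pow, aeval_X, Matrix.cons_val, Fin.reduceFinMk]
    rw [this]
    field_simp
    linear_combination w ^ 3 * e2

/-! ## COVER -/

theorem COVER_w {L : Type} [Field L] {R : ValuationSubring L} {Y P : L} (hP : P ∈ R)
    (h : Y ^ 2 = P) : Y ∈ R := by
  by_contra hY
  have hYi := LOC_inv hY
  have hY0 : Y ≠ 0 := by rintro rfl; exact hY R.zero_mem
  apply hY
  have h4 : Y = P * Y⁻¹ := by rw [← h]; field_simp
  rw [h4]
  exact mul_mem hP hYi

theorem COVER_x {L : Type} [Field L] {R : ValuationSubring L} {X Y a4 a6 : L} (ha4 : a4 ∈ R)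
    (ha6 : a6 ∈ R) (h : Y ^ 2 = X ^ 3 + a4 * X + a6) (hX : X ∉ R) :
    X / Y ∈ R ∧ 1 / Y ∈ R := by
  have hXi := LOC_inv hX
  have hX0 : X ≠ 0 := by rintro rfl; exact hX R.zero_mem
  obtain ⟨h7, h8⟩ := LOC_unit (O := R) (f := -(a4 * (X⁻¹) ^ 2 + a6 * (X⁻¹) ^ 3))
    (neg_mem (add_mem (mul_mem ha4 (pow_mem hXi 2)) (mul_mem ha6 (pow_mem hXi 3)))) (by
      by_cases h9 : -(a4 * (X⁻¹) ^ 2 + a6 * (X⁻¹) ^ 3) = 0
      · exact Or.inl h9
      · right
        intro h10
        apply hX
        have h11 : X = -(a4 * X⁻¹ + a6 * (X⁻¹) ^ 2) * (-(a4 * (X⁻¹) ^ 2 + a6 * (X⁻¹) ^ 3))⁻¹ := by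
          rw [eq_comm, ← div_eq_mul_inv, div_eq_iff h9]
          field_simp
        rw [h11]
        exact mul_mem (neg_mem (add_mem (mul_mem ha4 hXi) (mul_mem ha6 (pow_mem hXi 2)))) h10)
  set e := -(a4 * (X⁻¹) ^ 2 + a6 * (X⁻¹) ^ 3) with he
  have hE' : Y ^ 2 = X ^ 3 * (1 - e) := by
    rw [h, he]; field_simp; ring
  have hY0 : Y ≠ 0 := by
    rintro rfl
    have : X ^ 3 * (1 - e) = 0 := by rw [← hE']; ring
    rcases mul_eq_zero.1 this with h | h
    · exact hX0 (pow_eq_zero_iff (by norm_num) |>.1 h)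
    · exact h7 h
  constructor
  · refine COVER_w (P := X⁻¹ * (1 - e)⁻¹) (mul_mem hXi h8) ?_
    rw [div_pow, hE']; field_simp
  · refine COVER_w (P := (X⁻¹) ^ 3 * (1 - e)⁻¹) (mul_mem (pow_mem hXi 3) h8) ?_
    rw [div_pow, hE']; field_simp

theorem COVER_adj {k L : Type} [Field k] [Field L] [Algebra k L] {R : ValuationSubring L}
    (hR : ∀ c, algebraMap k L c ∈ R) (S : Set L) (hS : ∀ a ∈ S, a ∈ R) :
    ∀ a ∈ Algebra.adjoin k S, a ∈ R := by
  intro a ha
  induction ha using Algebra.adjoin_induction with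
  | mem x hx => exact hS x hx
  | algebraMap r => exact hR r
  | add x y _ _ hx hy => exact add_mem hx hy
  | mul x y _ _ hx hy => exact mul_mem hx hy

theorem COVER_Q {k L : Type} [Field k] [Field L] [Algebra k L] {R : ValuationSubring L}
    (hR : ∀ c, algebraMap k L c ∈ R) (b : Fin 10 → k) (t : L) (ht : t ∈ R) : Qf b t ∈ R := by
  unfold Qf
  exact sum_mem fun j _ => mul_mem (hR _) (pow_mem ht _)

theorem COVER_QI {k L : Type} [Field k] [Field L] [Algebra k L] {R : ValuationSubring L}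
    (hR : ∀ c, algebraMap k L c ∈ R) (P : MvPolynomial (Fin 4) k) (a : Fin 4 → L)
    (ha : ∀ i, a i ∈ R) : aeval a P ∈ R := by
  induction P using MvPolynomial.induction_on with
  | C c => rw [← algebraMap_eq, AlgHom.commutes]; exact hR c
  | add p q hp hq => rw [map_add]; exact add_mem hp hq
  | mul_X p i hp => rw [map_mul, aeval_X]; exact mul_mem hp (ha i)

theorem st_COVER : ST_COVER := by
  intro k L _ _ _ _ _ b t w x y h R hR
  obtain ⟨hw, hy⟩ := EQ_ne h
  have e1 := h.pt.e1
  have e2 := h.pt.e2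
  by_cases ht : t ∈ R
  · have hwR : w ∈ R := COVER_w (add_mem (pow_mem ht 3) R.one_mem) e1
    have hQ := COVER_Q hR b t ht
    by_cases hx : x ∈ R
    · have hyR : y ∈ R := COVER_w (add_mem (add_mem (pow_mem hx 3) hx) hQ) e2
      refine ⟨0, COVER_adj hR _ ?_⟩
      rintro a ⟨j, rfl⟩
      fin_cases j <;> simpa [co]
    · obtain ⟨h1, h2⟩ := COVER_x (a4 := 1) R.one_mem hQ (by rw [e2]; ring) hx
      refine ⟨1, COVER_adj hR _ ?_⟩
      rintro a ⟨j, rfl⟩
      rw [one_div] at h2
      fin_cases j <;> simpa [co]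
  · have hti := LOC_inv ht
    have ht0 : t ≠ 0 := by rintro rfl; exact ht R.zero_mem
    obtain ⟨hs, hr⟩ := COVER_x (R := R) (X := t) (Y := w) (a4 := 0) (a6 := 1) R.zero_mem R.one_mem
      (by rw [e1]; ring) ht
    have e3 : (1 / w) - (t / w) ^ 3 - (1 / w) ^ 3 = 0 := by
      field_simp
      linear_combination e1
    have hQI : aeval (![t / w, 1 / w, 0, 0] : Fin 4 → L) (QI b) = (1 / w) ^ 6 * Qf b t := by
      have := EQ_QI b (![t / w, 1 / w, 0, 0] : Fin 4 → L) (by simpa using hw) (by simpa using e3)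
      rw [this]
      simp only [Matrix.cons_val_zero, Matrix.cons_val_one]
      congr 2
      field_simp
    have hQR : (1 / w) ^ 6 * Qf b t ∈ R := by
      rw [← hQI]
      refine COVER_QI hR _ _ fun i => ?_
      fin_cases i
      · exact hs
      · exact hr
      · exact R.zero_mem
      · exact R.zero_mem
    have e4 : (y / w ^ 3) ^ 2 = (x / w ^ 2) ^ 3 + (1 / w) ^ 4 * (x / w ^ 2) +
        (1 / w) ^ 6 * Qf b t := by
      field_simp
      linear_combination e2
    by_cases hx : x / w ^ 2 ∈ R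
    · have hyR : y / w ^ 3 ∈ R :=
        COVER_w (add_mem (add_mem (pow_mem hx 3) (mul_mem (pow_mem hr 4) hx)) hQR) e4
      refine ⟨2, COVER_adj hR _ ?_⟩
      rintro a ⟨j, rfl⟩
      fin_cases j
      · simpa [co] using hs
      · simpa [co] using hr
      · simpa [co] using hx
      · simpa [co] using hyR
    · obtain ⟨h1, h2⟩ := COVER_x (pow_mem hr 4) hQR e4 hx
      refine ⟨3, COVER_adj hR _ ?_⟩
      rintro a ⟨j, rfl⟩
      fin_cases j
      · simpa [co] using hs
      · simpa [co] using hr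
      · have : co t w x y 3 2 = x / w ^ 2 / (y / w ^ 3) := by
          simp [co]; field_simp
        change co t w x y 3 2 ∈ R
        rw [this]
        exact h1
      · have : co t w x y 3 3 = 1 / (y / w ^ 3) := by
          simp [co]
        change co t w x y 3 3 ∈ R
        rw [this]
        exact h2

end Pool.Agent.Helper8.SPV
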