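import Pool.Agent.Helper8.SPV.Stmts3

/-! # The final assembly -/

set_option autoImplicit false

namespace Pool.Agent.Helper8.SPV

open AlgebraicGeometry CategoryTheory CategoryTheory.Limits

theorem FINAL_b9 {k0 k : Type} [Field k0] [Field k] [Algebra k0 k] {b : Fin 10 → k}
    (h : BD k0 k b) : b 9 ≠ 0 := by
  intro h0
  exact h.indep.ne_zero 9 h0

theorem st_FINAL (h1 : ST_BDEX) (h2 : ST_ESEX) (h3 : ST_COVER) (h4 : ST_MODEL) (h5 : ST_SM)
    (h6 : ST_SMX) (h7 : ST_IDDES) (h8 : ST_DPROP) (h9 : ST_GENX) (h10 : ST_NB) (h11 : ST_NGS) :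
    ST_FINAL := by
  intro k _ _ _ hk
  obtain ⟨k0, i1, i2, i3, b, hb⟩ := h1 k hk
  obtain ⟨L, j1, j2, t, w, x, y, hE⟩ := h2 k b
  obtain ⟨X, s, c, hM⟩ := h4 k L b t w x y hE (fun R hR => h3 k L b t w x y hE R hR)
  have hsm : Smooth s := h6 k L t w x y X s c hM (fun i => h5 k0 k L b t w x y hb hE i)
  refine ⟨X, s, hM.proj, hsm, ⟨⟨X, 𝟙 X, h7 k X s hM.proj hsm⟩, ?_⟩,
    h11 k0 k L b t w x y X s c hb hE hM⟩
  intro X' π hd
  obtain ⟨t', w', x', y', hE'⟩ := h9 k L b t w x y X s c hE hM X' π hd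
  have := hd.integral
  have := hd.smooth
  have := h8 k X X' s π hM.proj hd
  exact h10 k b (FINAL_b9 hb) X' (π ≫ s) t' w' x' y' hE'

end Pool.Agent.Helper8.SPV
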