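import Pool.Agent.Helper8.SPV.Stmts2

/-! # Module FUNC -/

set_option autoImplicit false

namespace Pool.Agent.Helper8.SPV

theorem FUNC_det {L : Type} [Field L] (R : ValuationSubring L) {p : ℕ}
    (M : Matrix (Fin p) (Fin p) L) (hM : ∀ i j, M i j ∈ R) : M.det ∈ R := by
  rw [Matrix.det_apply]
  refine sum_mem fun σ _ => ?_
  refine R.toSubring.zsmul_mem ?_ _
  exact prod_mem fun i _ => hM _ _

theorem st_FUNC : ST_FUNC := by
  intro k L _ _ _ p D
  let ev : Ω[L⁄k] →ₗ[L] (Fin p → L) := LinearMap.pi fun i => (D i).liftKaehlerDifferential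
  let al : Ω[L⁄k] [⋀^Fin p]→ₗ[L] L := Matrix.detRowAlternating.compLinearMap ev
  have h1 : ∀ f, exteriorPower.alternatingMapLinearEquiv al (dd k L p f) =
      Matrix.det (Matrix.of fun i j => D i (f j)) := by
    intro f
    unfold dd
    rw [exteriorPower.alternatingMapLinearEquiv_apply_ιMulti]
    refine Eq.trans ?_ (Matrix.det_transpose (Matrix.of fun i j => D i (f j)))
    change Matrix.det (Matrix.of fun j i => ev (KaehlerDifferential.D k L (f j)) i) = _
    congr 1
    ext i j
    simp [ev, Matrix.transpose_apply]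
  refine ⟨exteriorPower.alternatingMapLinearEquiv al, h1, ?_⟩
  intro R hR ω hω
  unfold forms at hω
  induction hω using Submodule.span_induction with
  | mem x hx =>
    obtain ⟨f, hf, rfl⟩ := hx
    rw [h1]
    exact FUNC_det R _ fun i j => hR _ _ (hf j)
  | zero => rw [map_zero]; exact R.zero_mem
  | add x y _ _ hx hy => rw [map_add]; exact add_mem hx hy
  | smul a x _ hx =>
    change exteriorPower.alternatingMapLinearEquiv al ((a : L) • x) ∈ R
    rw [map_smul, smul_eq_mul]
    exact mul_mem a.2 hx

end Pool.Agent.Helper8.SPV
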