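import Pool.Agent.Helper8.SPV.Stmts

/-! # Modules TR and ID -/

set_option autoImplicit false

namespace Pool.Agent.Helper8.SPV

theorem st_TR : ST_TR := by
  intro k0 k K _ _ _ _ _ b hb T hT
  have hb9 : b 9 ≠ 0 := hb.indep.ne_zero 9
  set P : Polynomial k := ∑ j : Fin 10, Polynomial.C (b j) * Polynomial.X ^ (j : ℕ) with hP
  have h1 : Qf b T = Polynomial.aeval T P := by
    rw [hP, map_sum]
    unfold Qf
    refine Finset.sum_congr rfl fun j _ => ?_
    rw [map_mul, Polynomial.aeval_C, map_pow, Polynomial.aeval_X]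
  have hc : P.coeff 9 = b 9 := by
    rw [hP, Polynomial.finsetSum_coeff]
    rw [Finset.sum_eq_single (9 : Fin 10)]
    · rw [Polynomial.coeff_C_mul, Polynomial.coeff_X_pow]
      simp
    · intro j _ hj
      rw [Polynomial.coeff_C_mul, Polynomial.coeff_X_pow, if_neg, mul_zero]
      intro h9
      apply hj
      apply Fin.ext
      exact h9.symm
    · intro h
      exact absurd (Finset.mem_univ _) h
  rw [h1]
  have hPd : P.natDegree ≠ 0 := by
    intro h0
    apply hb9
    rw [← hc]
    exact Polynomial.coeff_eq_zero_of_natDegree_lt (by omega)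
  refine hT.aeval P hPd ?_
  apply mem_nonZeroDivisors_of_ne_zero
  rw [Polynomial.leadingCoeff_ne_zero]
  rintro h0
  rw [h0, Polynomial.natDegree_zero] at hPd
  exact hPd rfl

theorem ID_der {A K : Type} [CommRing A] [Field K] [Algebra A K] {k : Type} [Field k]
    [Algebra k K] (b : Fin 10 → k) (D : Derivation A K K) (T : K) :
    D (Qf b T) = ∑ j : Fin 10, D (algebraMap k K (b j)) * T ^ (j : ℕ) + Qd b T * D T := by
  unfold Qf Qd
  rw [map_sum, Finset.sum_mul, ← Finset.sum_add_distrib]
  refine Finset.sum_congr rfl fun j _ => ?_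
  rw [Derivation.leibniz, Derivation.leibniz_pow, smul_eq_mul, smul_eq_mul, smul_eq_mul,
    nsmul_eq_mul]
  ring

theorem ID_eq {A K : Type} [CommRing A] [Field K] [CharZero K] [Algebra A K]
    (D : Derivation A K K) (X Y U : K) (h : Y ^ 2 = X ^ 3 + X + U) :
    2 * Y * D Y = (3 * X ^ 2 + 1) * D X + D U := by
  have h1 := congrArg D h
  rw [map_add, map_add, Derivation.leibniz_pow, Derivation.leibniz_pow, smul_eq_mul, smul_eq_mul,
    nsmul_eq_mul, nsmul_eq_mul] at h1
  push_cast at h1
  linear_combination h1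

theorem st_ID : ST_ID := by
  intro k0 k K _ _ _ _ _ _ _ _ _ b T W X Y d hp hT hU
  have hc0 : CharZero K := charZero_of_injective_algebraMap (algebraMap k K).injective
  have hW : W ≠ 0 := by
    rintro rfl
    apply hT
    have h1 : T ^ 3 + 1 = 0 := by rw [← hp.e1]; ring
    refine ⟨Polynomial.X ^ 3 + 1, ?_, ?_⟩
    · intro h
      have := congrArg (fun P => Polynomial.coeff P 0) h
      simp at this
    · simpa using h1
  have hYX : Y ≠ 0 ∨ 3 * X ^ 2 + 1 ≠ 0 := by
    by_contra h
    push Not at h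
    obtain ⟨h1, h2⟩ := h
    have hX : IsAlgebraic k X := by
      refine ⟨Polynomial.C 3 * Polynomial.X ^ 2 + 1, ?_, ?_⟩
      · intro h
        have := congrArg (fun P => Polynomial.coeff P 0) h
        simp at this
      · simpa [map_ofNat] using h2
    apply hU
    have h3 : Qf b T = -(X ^ 3 + X) := by
      have := hp.e2
      rw [h1] at this
      linear_combination -this
    rw [h3]
    exact ((hX.pow 3).add hX).neg
  have hδ : d.δ (Qf b T) = gg b T W := by
    rw [ID_der, d.δT]
    unfold gg
    have : ∀ j : Fin 10, d.δ (algebraMap k K (b j)) = 0 := fun j => d.δ.map_algebraMap _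
    simp only [this, zero_mul, Finset.sum_const_zero]
    ring
  have hD : ∀ j : Fin 10, d.D j (Qf b T) = T ^ (j : ℕ) := by
    intro j
    rw [ID_der, d.DT, mul_zero, add_zero, Finset.sum_eq_single j]
    · rw [d.Db, if_pos rfl, one_mul]
    · intro i _ hij
      rw [d.Db, if_neg hij, zero_mul]
    · intro h
      exact absurd (Finset.mem_univ _) h
  -- general lemma
  have key : ∀ x1 y1 : K, (Y = 0 → y1 = 0) → 2 * Y * y1 = (3 * X ^ 2 + 1) * x1 →
      x1 = 2 * Y * (x1 / (2 * Y)) ∧ y1 = (3 * X ^ 2 + 1) * (x1 / (2 * Y)) := by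
    intro x1 y1 hy1 h
    by_cases hY : Y = 0
    · have h3 := hYX.resolve_left (not_not.2 hY)
      have h4 : x1 = 0 := by
        rw [hY, mul_zero, zero_mul] at h
        exact (mul_eq_zero.1 h.symm).resolve_left h3
      rw [h4, hy1 hY, hY]
      simp
    · constructor
      · field_simp
      · rw [eq_comm, ← mul_div_assoc, ← h]
        field_simp
  refine ⟨hYX, hW, hδ, hD, ?_, ?_, ?_⟩
  · intro j
    have h1 := ID_eq (d.D j.castSucc) X Y _ hp.e2
    have h2 := ID_eq (d.D j.succ) X Y _ hp.e2
    rw [hD] at h1 h2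
    have h3 : T ^ ((j.succ : Fin 10) : ℕ) = T * T ^ ((j.castSucc : Fin 10) : ℕ) := by
      rw [Fin.val_succ, Fin.val_castSucc, pow_succ]
      ring
    rw [h3] at h2
    exact key _ _ (by rintro rfl; simp) (by linear_combination T * h1 - h2)
  · have h1 := ID_eq (d.D 0) X Y _ hp.e2
    have h2 := ID_eq d.δ X Y _ hp.e2
    rw [hD, Fin.val_zero, pow_zero] at h1
    rw [hδ] at h2
    exact key _ _ (by rintro rfl; simp) (by linear_combination gg b T W * h1 - h2)
  · have h2 := ID_eq d.δ X Y _ hp.e2
    rw [hδ] at h2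
    linear_combination h2

end Pool.Agent.Helper8.SPV
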