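import Pool.Agent.Helper8.SPV.Stmts3
import Pool.Agent.Helper71.PPProper

/-! # Modules IDDES, DPROP -/

set_option autoImplicit false

namespace Pool.Agent.Helper8.SPV

open AlgebraicGeometry CategoryTheory CategoryTheory.Limits
open Pool.Agent.Helper71 (PP PPtoSpec)

theorem st_IDDES : ST_IDDES := by
  intro k _ X s hp hs
  have := hp.integral
  refine ⟨hp.integral, ?_, inferInstance, ⊤, ?_, ?_⟩
  · rw [Category.id_comp]; exact hs
  · exact ⟨genericPoint X, trivial⟩
  · infer_instance

theorem st_DPROP : ST_DPROP := by
  intro k _ X X' s π hp hd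
  obtain ⟨N, i, hi, h⟩ := hp.projective
  have := hd.proper
  have : IsProper s := by
    rw [← h]
    infer_instance
  infer_instance

end Pool.Agent.Helper8.SPV
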