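import Pool.Agent.Helper8.SPV.Stmts3

/-! # Module SMX -/

set_option autoImplicit false

namespace Pool.Agent.Helper8.SPV

open AlgebraicGeometry CategoryTheory CategoryTheory.Limits

theorem st_SMX : ST_SMX := by
  intro k L _ _ _ _ _ t w x y X s c hM hs
  have := hM.isOpen
  let U : Fin 4 → X.Opens := fun i => (c i).opensRange
  have hU : iSup U = ⊤ := by
    rw [eq_top_iff]
    intro p _
    obtain ⟨i, hi⟩ := hM.cover p
    rw [TopologicalSpace.Opens.mem_iSup]
    exact ⟨i, hi⟩
  have hZ : IsZariskiLocalAtSource (@Smooth : MorphismProperty Scheme.{0}) :=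
    HasRingHomProperty.instIsZariskiLocalAtSource
  rw [IsZariskiLocalAtSource.iff_of_iSup_eq_top (P := @Smooth) U hU]
  intro i
  have h1 : (U i).ι ≫ s = (c i).isoOpensRange.inv ≫ (c i ≫ s) := by
    rw [← Category.assoc]
    congr 1
    simp [U]
  rw [h1, hM.isOver i]
  have h2 : Smooth (Spec.map (CommRingCat.ofHom (algebraMap k (ch k t w x y i)))) := by
    rw [HasRingHomProperty.Spec_iff (P := @Smooth)]
    exact (RingHom.smooth_algebraMap).2 (hs i)
  infer_instance

end Pool.Agent.Helper8.SPV
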