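import Pool.Agent.Helper14.SPV.B1
import Pool.Agent.Helper14.SPV.DEREXT
import Pool.Agent.Helper14.SPV.LFIN
import Pool.Agent.Helper15.SPV.A4I
import Pool.Agent.Helper15.SPV.Z1I
import Pool.Agent.Helper17.SPV.AB
import Pool.Agent.Helper17.SPV.DVR1
import Pool.Agent.Helper17.SPV.NGS
import Pool.Agent.Helper19.SPV.JAC
import Pool.Agent.Helper19.SPV.SM
import Pool.Agent.Helper22.SPV.WREG
import Pool.Agent.Helper22.SPV.Z1
import Pool.Agent.Helper22.SPV.Z2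
import Pool.Agent.Helper23.SPV.GS4
import Pool.Agent.Helper24.SPV.CENTER
import Pool.Agent.Helper24.SPV.FREE
import Pool.Agent.Helper24.SPV.GS3
import Pool.Agent.Helper27.SPV.B2
import Pool.Agent.Helper27.SPV.CODIM
import Pool.Agent.Helper27.SPV.DER1
import Pool.Agent.Helper27.SPV.KAPIND
import Pool.Agent.Helper27.SPV.PL3
import Pool.Agent.Helper27.SPV.REG
import Pool.Agent.Helper30.SPV.PRES
import Pool.Agent.Helper30.SPV.ULT
import Pool.Agent.Helper34.SPV.BASE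
import Pool.Agent.Helper34.SPV.ELB1
import Pool.Agent.Helper34.SPV.ELB2
import Pool.Agent.Helper35.SPV.GENX
import Pool.Agent.Helper38.SPV.HARTOGS
import Pool.Agent.Helper41.SPV.ELX
import Pool.Agent.Helper41.SPV.SPEC1
import Pool.Agent.Helper45.SPV.CORR
import Pool.Agent.Helper45.SPV.ELD
import Pool.Agent.Helper45.SPV.G1
import Pool.Agent.Helper45.SPV.LDD
import Pool.Agent.Helper53.SPV.MODEL
import Pool.Agent.Helper56.SPV.PL1
import Pool.Agent.Helper57.SPV.A3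
import Pool.Agent.Helper60.SPV.PL4
import Pool.Agent.Helper60.SPV.RH
import Pool.Agent.Helper67.SPV.BASI
import Pool.Agent.Helper67.SPV.DER
import Pool.Agent.Helper67.SPV.DERALG
import Pool.Agent.Helper67.SPV.PD
import Pool.Agent.Helper71.SPV.KERN
import Pool.Agent.Helper71.SPV.PL5
import Pool.Agent.Helper75.SPV.BDEX
import Pool.Agent.Helper75.SPV.PLM
import Pool.Agent.Helper77.SPV.A4F
import Pool.Agent.Helper77.SPV.Z1F
import Pool.Agent.Helper79.SPV.GS1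
import Pool.Agent.Helper79.SPV.GS2
import Pool.Agent.Helper8.SPV.AGEN
import Pool.Agent.Helper8.SPV.BFIN
import Pool.Agent.Helper8.SPV.EINF
import Pool.Agent.Helper8.SPV.EQ
import Pool.Agent.Helper8.SPV.FINAL
import Pool.Agent.Helper8.SPV.FUNC
import Pool.Agent.Helper8.SPV.ID
import Pool.Agent.Helper8.SPV.IDDES
import Pool.Agent.Helper8.SPV.LOC
import Pool.Agent.Helper8.SPV.SMX
import Pool.Agent.Helper80.SPV.PL6
import Pool.Agent.Helper80.SPV.PL7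
import Pool.Agent.Helper80.SPV.PLFT
import Pool.Agent.Helper90.SPV.ADM
import Pool.Agent.Helper90.SPV.SPEC2
import Pool.Agent.Helper94.SPV.A5
import Pool.Agent.Helper94.SPV.ESEX
import Pool.Agent.Helper94.SPV.FFT
import Pool.Agent.Helper94.SPV.OM
import Pool.Agent.Helper94.SPV.SUBFF
import Pool.Agent.Helper95.SPV.A2
import Pool.Agent.Helper95.SPV.A4
import Pool.Agent.Helper95.SPV.NB
import Pool.Agent.Helper99.SPV.GAUSS

/-! # All modules together -/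

set_option autoImplicit false

namespace Pool.Agent.Helper8.SPV

theorem fin_PL1 : ST_PL1 :=
  st_PL1

theorem fin_FFT : ST_FFT :=
  st_FFT

theorem fin_SUBFF : ST_SUBFF :=
  st_SUBFF fin_FFT

theorem fin_PL6 : ST_PL6 :=
  st_PL6 fin_PL1 fin_SUBFF

theorem fin_PLR : ST_PLR :=
  st_PLR fin_PL1 fin_SUBFF

theorem fin_PL2 : ST_PL2 :=
  st_PL2 fin_PL1 fin_FFT

theorem fin_PLFT : ST_PLFT :=
  st_PLFT

theorem fin_REG : ST_REG :=
  st_REG fin_PL1 fin_PLFT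

theorem fin_DERALG : ST_DERALG :=
  st_DERALG

theorem fin_DER1 : ST_DER1 :=
  st_DER1 fin_PL1 fin_REG fin_FFT fin_DERALG

theorem fin_PL7 : ST_PL7 :=
  st_PL7 fin_PL1 fin_PL2 fin_DER1

theorem fin_RH : ST_RH :=
  st_RH fin_PL1 fin_PL6 fin_PLR fin_PL7 fin_DER1

theorem fin_PLM : ST_PLM :=
  st_PLM fin_PL2 fin_PL6 fin_PLR

theorem fin_PL4 : ST_PL4 :=
  st_PL4 fin_PL1 fin_PL6 fin_PLM fin_PLR fin_SUBFF

theorem fin_PL3 : ST_PL3 :=
  st_PL3 fin_PL1 fin_PL2 fin_PL4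

theorem fin_LOC : ST_LOC :=
  st_LOC

theorem fin_ID : ST_ID :=
  st_ID

theorem fin_EINF : ST_EINF :=
  st_EINF fin_PL1

theorem fin_CORR : ST_CORR :=
  st_CORR fin_PL1 fin_REG fin_EINF fin_DER1

theorem fin_DEREXT : ST_DEREXT :=
  st_DEREXT

theorem fin_PD : ST_PD :=
  st_PD fin_DEREXT

theorem fin_G1 : ST_G1 :=
  st_G1 fin_PD

theorem fin_TR : ST_TR :=
  st_TR

theorem fin_Z1F : ST_Z1F :=
  st_Z1F fin_PL1 fin_LOC fin_ID fin_CORR fin_G1 fin_TR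

theorem fin_Z1I : ST_Z1I :=
  st_Z1I fin_PL1 fin_LOC fin_ID fin_CORR fin_EINF fin_TR

theorem fin_Z1 : ST_Z1 :=
  st_Z1 fin_PL1 fin_PL2 fin_PL3 fin_PL7 fin_Z1F fin_Z1I fin_CORR fin_EINF

theorem fin_Z2F : ST_Z2F :=
  st_Z2F fin_PL1 fin_LOC fin_ID fin_CORR fin_G1 fin_TR

theorem fin_Z2I : ST_Z2I :=
  st_Z2I fin_PL1 fin_LOC fin_ID fin_CORR fin_EINF fin_TR

theorem fin_Z2 : ST_Z2 :=
  st_Z2 fin_PL1 fin_PL2 fin_PL3 fin_PL7 fin_Z2F fin_Z2I fin_CORR fin_EINF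

theorem fin_A2 : ST_A2 :=
  st_A2 fin_DEREXT fin_ID fin_TR

theorem fin_A3 : ST_A3 :=
  st_A3

theorem fin_PL5 : ST_PL5 :=
  st_PL5

theorem fin_CODIM : ST_CODIM :=
  st_CODIM fin_PL1

theorem fin_KERN : ST_KERN :=
  st_KERN fin_DER1

theorem fin_BASI : ST_BASI :=
  st_BASI

theorem fin_A4F : ST_A4F :=
  st_A4F fin_PL1 fin_G1 fin_CORR fin_DERALG fin_ID fin_TR

theorem fin_A4I : ST_A4I :=
  st_A4I fin_PL1 fin_EINF fin_DER1

theorem fin_A4 : ST_A4 :=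
  st_A4 fin_PL1 fin_PL5 fin_PL7 fin_CORR fin_EINF fin_CODIM fin_KERN fin_BASI fin_A4F fin_A4I fin_ID fin_TR fin_DER1

theorem fin_A5 : ST_A5 :=
  st_A5

theorem fin_AGEN : ST_AGEN :=
  st_AGEN fin_Z1 fin_Z2 fin_A2 fin_A3 fin_A4 fin_A5 fin_PL4 fin_CORR fin_TR

theorem fin_DER : ST_DER :=
  st_DER fin_DEREXT fin_DERALG fin_PD fin_FFT

theorem fin_KAPIND : ST_KAPIND :=
  st_KAPIND fin_PL1 fin_PL2 fin_PL3 fin_PL7 fin_DER1

theorem fin_AB : ST_AB :=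
  st_AB fin_AGEN fin_DER fin_SUBFF fin_PLM fin_RH fin_KAPIND fin_PL1 fin_PL2 fin_DEREXT

theorem fin_LFIN : ST_LFIN :=
  st_LFIN fin_PL1 fin_PL5

theorem fin_B1 : ST_B1 :=
  st_B1 fin_PL1 fin_PL2 fin_LFIN fin_CODIM

theorem fin_WREG : ST_WREG :=
  st_WREG fin_PL1 fin_PL7 fin_PL5 fin_DER1 fin_LFIN

theorem fin_B2 : ST_B2 :=
  st_B2 fin_PL1 fin_DER1 fin_WREG

theorem fin_LDD : ST_LDD :=
  st_LDD fin_DEREXT

theorem fin_ULT : ST_ULT :=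
  st_ULT fin_LDD

theorem fin_BFIN : ST_BFIN :=
  st_BFIN fin_DEREXT fin_B1 fin_WREG fin_B2 fin_ULT

theorem fin_ALG : ST_ALG :=
  st_ALG fin_AB fin_BFIN

theorem fin_BDEX : ST_BDEX :=
  st_BDEX

theorem fin_ELREG : ST_ELREG :=
  st_ELREG

theorem fin_ELB1 : ST_ELB1 :=
  st_ELB1

theorem fin_EQ : ST_EQ :=
  st_EQ

theorem fin_PRES0 : ST_PRES0 :=
  st_PRES0 fin_EQ

theorem fin_PRES1 : ST_PRES1 :=
  st_PRES1 fin_EQ

theorem fin_PRES2 : ST_PRES2 :=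
  st_PRES2 fin_EQ

theorem fin_PRES3 : ST_PRES3 :=
  st_PRES3 fin_EQ

theorem fin_JAC : ST_JAC :=
  st_JAC

theorem fin_SM : ST_SM :=
  st_SM fin_EQ fin_PRES0 fin_PRES1 fin_PRES2 fin_PRES3 fin_JAC fin_G1

theorem fin_GENX : ST_GENX :=
  st_GENX

theorem fin_OM : ST_OM :=
  st_OM

theorem fin_CENTER : ST_CENTER :=
  st_CENTER

theorem fin_HARTOGS : ST_HARTOGS :=
  st_HARTOGS

theorem fin_FREE : ST_FREE :=
  st_FREE

theorem fin_ADM : ST_ADM :=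
  st_ADM fin_CENTER fin_HARTOGS fin_FREE

theorem fin_ELD : ST_ELD :=
  st_ELD fin_DEREXT

theorem fin_ELB2 : ST_ELB2 :=
  st_ELB2

theorem fin_FUNC : ST_FUNC :=
  st_FUNC

theorem fin_BASE : ST_BASE :=
  st_BASE fin_DEREXT

theorem fin_GAUSS : ST_GAUSS :=
  st_GAUSS fin_PL1 fin_DEREXT

theorem fin_SPEC1 : ST_SPEC1 :=
  st_SPEC1 fin_ELD fin_ELB1 fin_ELB2 fin_FUNC fin_OM fin_BASE fin_GAUSS fin_PL5

theorem fin_SPEC2 : ST_SPEC2 :=
  st_SPEC2 fin_ELD fin_ELREG fin_ELB1 fin_ELB2 fin_FUNC fin_OM fin_BASE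

theorem fin_NB : ST_NB :=
  st_NB fin_ADM fin_SPEC1 fin_SPEC2 fin_OM

theorem fin_MODEL : ST_MODEL :=
  st_MODEL fin_EQ

theorem fin_ESEX : ST_ESEX :=
  st_ESEX

theorem fin_GS1 : ST_GS1 :=
  st_GS1

theorem fin_GS2 : ST_GS2 :=
  st_GS2 fin_GS1

theorem fin_GS3 : ST_GS3 :=
  st_GS3

theorem fin_GS4 : ST_GS4 :=
  st_GS4

theorem fin_NGS : ST_NGS :=
  st_NGS fin_ALG fin_GS1 fin_GS2 fin_GS3 fin_GS4

theorem fin_DVR1 : ST_DVR1 :=
  st_DVR1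

theorem fin_COVER : ST_COVER :=
  st_COVER

theorem fin_IDDES : ST_IDDES :=
  st_IDDES

theorem fin_DPROP : ST_DPROP :=
  st_DPROP

theorem fin_ELKS : ST_ELKS :=
  st_ELKS

theorem fin_SMX : ST_SMX :=
  st_SMX

theorem fin_FINAL : ST_FINAL :=
  st_FINAL fin_BDEX fin_ESEX fin_COVER fin_MODEL fin_SM fin_SMX fin_IDDES fin_DPROP fin_GENX fin_NB fin_NGS

end Pool.Agent.Helper8.SPV
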