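import Mathlib
import Pool.Agent.Helper71.GonDefs

/-! # Special and geometrically-special varieties: definitions -/

set_option autoImplicit false

namespace Pool.Agent.Helper8.SPV

open AlgebraicGeometry CategoryTheory CategoryTheory.Limits
open Pool.Agent.Helper71 (PP PPtoSpec)

/-! ## Differential forms on a field -/

section forms

variable (k L : Type) [Field k] [Field L] [Algebra k L]

/-- The `p`-forms of the field extension `L` of `k`: the exterior power of the Kähler
differentials. -/
abbrev Om (p : ℕ) : Type := ⋀[L]^p (Ω[L⁄k])

/-- The form `df_1 ∧ ... ∧ df_p`. -/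
noncomputable def dd (p : ℕ) (f : Fin p → L) : Om k L p :=
  exteriorPower.ιMulti L p fun i => KaehlerDifferential.D k L (f i)

/-- For a subring `A` of `L`: the `A`-submodule of the `p`-forms of `L` generated by the forms
`df_1 ∧ ... ∧ df_p` with all `f_i` in `A`. If `A` is the local ring at a point of a smooth variety
with function field `L`, this is the stalk of the sheaf of `p`-forms at that point. -/
noncomputable def forms (p : ℕ) (A : Subring L) : Submodule A (Om k L p) :=
  Submodule.span A {ω | ∃ f : Fin p → L, (∀ i, f i ∈ A) ∧ ω = dd k L p f}

end forms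

/-! ## Function fields of integral schemes -/

section ff

variable {k : Type} [Field k] {X : Scheme.{0}} [IsIntegral X] (s : X ⟶ Spec (.of k))

/-- The function field of the integral scheme `X` over `k` (with structure morphism `s`). -/
def FF (_ : X ⟶ Spec (.of k)) : Type := X.functionField

noncomputable instance instFieldFF : Field (FF s) := (inferInstance : Field X.functionField)

/-- The inclusion of the constants in the function field. -/
noncomputable def kToFF : k →+* FF s :=
  ((Scheme.ΓSpecIso (.of k)).inv ≫ s.appTop ≫
    X.presheaf.germ ⊤ (genericPoint X) trivial).hom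

noncomputable instance : Algebra k (FF s) := (kToFF s).toAlgebra

/-- The local ring at the point `x`, as a subring of the function field. -/
noncomputable def locRing (x : X) : Subring (FF s) :=
  (algebraMap (X.presheaf.stalk x) X.functionField).range

/-! ## Rank one coherent subsheaves of the sheaf of `p`-forms -/

/-- A coherent subsheaf `F` of rank one of the sheaf of `p`-forms of the smooth integral scheme `X`
over `k`. As the sheaf of `p`-forms is locally free, its sections are `p`-forms of the function
field, and `F` is given by its stalks. `F` is coherent: locally it is generated by finitely many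
sections. `F` is of rank one: over the function field its stalks span the line of a nonzero
form `gen`. -/
structure RankOneSub (p : ℕ) where
  /-- the stalks -/
  stalk : ∀ x : X, Submodule (locRing s x) (Om k (FF s) p)
  stalk_le : ∀ x, stalk x ≤ forms k (FF s) p (locRing s x)
  coherent : ∀ x : X, ∃ (U : X.Opens) (G : Finset (Om k (FF s) p)), x ∈ U ∧
    ∀ y ∈ U, stalk y = Submodule.span (locRing s y) (G : Set (Om k (FF s) p))
  /-- a generator of the stalk at the generic point -/
  gen : Om k (FF s) p
  gen_ne : gen ≠ 0
  rank_one : ∀ x : X, Submodule.span (FF s) (stalk x : Set (Om k (FF s) p)) =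
    Submodule.span (FF s) {gen}

variable {s} {p : ℕ}

/-- The fractional ideal `{a | a • gen ∈ F_x}`, so that `F_x` is this ideal times `gen`. -/
noncomputable def RankOneSub.frac (F : RankOneSub s p) (x : X) :
    Submodule (locRing s x) (FF s) where
  carrier := {a | a • F.gen ∈ F.stalk x}
  add_mem' := fun {a b} ha hb => by
    change (a + b) • F.gen ∈ F.stalk x
    rw [add_smul]
    exact add_mem ha hb
  zero_mem' := by
    change (0 : FF s) • F.gen ∈ F.stalk x
    rw [zero_smul]
    exact zero_mem _
  smul_mem' := fun c a ha => by
    change (c • a) • F.gen ∈ F.stalk x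
    rw [smul_assoc]
    exact Submodule.smul_mem _ c ha

/-- The global sections of the reflexive hull of the `m`-th tensor power of `F`: the section
`a • gen ^ ⊗ m` is represented by `a`, and it is a section of the reflexive hull iff it lies in
the `m`-th power of `F` at every point of codimension one. -/
def RankOneSub.sections (F : RankOneSub s p) (m : ℕ) : Set (FF s) :=
  {a | ∀ x : X, ringKrullDim (X.presheaf.stalk x) = 1 → a ∈ F.frac x ^ m}

/-- The Iitaka dimension `κ(X, F)`: the maximum over the `m ≥ 1`, for which the reflexive hull of
the `m`-th tensor power of `F` has a nonzero section, of the transcendence degree over `k` of the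
field generated by the quotients of its sections (the dimension of the image of the rational map
given by these sections). It is `⊥` (that is, `-∞`) if there is no such `m`. -/
noncomputable def RankOneSub.iitakaDim (F : RankOneSub s p) : WithBot ℕ∞ :=
  ⨆ (m : ℕ) (_ : 1 ≤ m ∧ ∃ a ∈ F.sections m, a ≠ 0),
    ((Cardinal.toENat (Algebra.trdeg k (IntermediateField.adjoin k
      {c : FF s | ∃ a ∈ F.sections m, ∃ a' ∈ F.sections m, c = a / a'})) : ℕ∞) : WithBot ℕ∞)

end ff

/-! ## Special varieties -/

section special

variable {k : Type} [Field k] {X : Scheme.{0}}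

/-- `π : X' → X` is a desingularization of the variety `X` over `k` (with structure
morphism `s`): `X'` is a smooth variety over `k`, and `π` is proper and an isomorphism over a
nonempty open subset of `X`. -/
structure IsDesing {X' : Scheme.{0}} (s : X ⟶ Spec (.of k)) (π : X' ⟶ X) : Prop where
  integral : IsIntegral X'
  smooth : Smooth (π ≫ s)
  proper : IsProper π
  birational : ∃ U : X.Opens, (U : Set X).Nonempty ∧ IsIso (π ∣_ U)

/-- For every `p ≥ 1`, every rank one coherent subsheaf of the sheaf of `p`-forms of `X` has
Iitaka dimension at most `p - 1`. -/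
def NoBogomolov [IsIntegral X] (s : X ⟶ Spec (.of k)) : Prop :=
  ∀ p : ℕ, 1 ≤ p → ∀ F : RankOneSub s p, F.iitakaDim < (p : WithBot ℕ∞)

/-- The proper variety `X` over `k` (with structure morphism `s`) is special: it has a
desingularization, and on every desingularization every rank one coherent subsheaf of the
sheaf of `p`-forms, `p ≥ 1`, has Iitaka dimension at most `p - 1`. -/
def IsSpecial (s : X ⟶ Spec (.of k)) : Prop :=
  (∃ (X' : Scheme.{0}) (π : X' ⟶ X), IsDesing s π) ∧
    ∀ (X' : Scheme.{0}) (π : X' ⟶ X) (h : IsDesing s π),
      haveI := h.integral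
      NoBogomolov (π ≫ s)

end special

/-! ## Geometrically-special varieties -/

section geomspecial

variable {k : Type} [Field k]

/-- `C` (with structure morphism `sC`) is a smooth quasi-projective curve over `k`. -/
structure IsCurve {C : Scheme.{0}} (sC : C ⟶ Spec (.of k)) : Prop where
  integral : IsIntegral C
  smooth : SmoothOfRelativeDimension 1 sC
  quasiProjective : ∃ (N : ℕ) (i : C ⟶ PP k N), IsImmersion i ∧ i ≫ PPtoSpec k N = sC

/-- `X` (with structure morphism `s`) is geometrically-special over `k`: for every dense open
subset `U` of `X` there are a smooth quasi-projective connected curve `C`, points `c ∈ C(k)` and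
`u ∈ U(k)`, and morphisms `f_1, f_2, ... : C → X` over `k` with `f_i(c) = u` such that the union
of their graphs is dense in `C × X`. -/
def IsGeomSpecial {X : Scheme.{0}} (s : X ⟶ Spec (.of k)) : Prop :=
  ∀ U : X.Opens, Dense (U : Set X) →
    ∃ (C : Scheme.{0}) (sC : C ⟶ Spec (.of k)) (_ : IsCurve sC)
      (c : Spec (.of k) ⟶ C) (u : Spec (.of k) ⟶ X) (f : ℕ → (C ⟶ X))
      (hf : ∀ i, 𝟙 C ≫ sC = f i ≫ s),
      c ≫ sC = 𝟙 _ ∧ u ≫ s = 𝟙 _ ∧ Set.range u ⊆ (U : Set X) ∧ (∀ i, c ≫ f i = u) ∧
      closure (⋃ i, Set.range (pullback.lift (𝟙 C) (f i) (hf i))) = Set.univ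

/-- `X` (with structure morphism `s`) is a projective variety over `k`. -/
structure IsProjVar {X : Scheme.{0}} (s : X ⟶ Spec (.of k)) : Prop where
  integral : IsIntegral X
  projective : ∃ (N : ℕ) (i : X ⟶ PP k N), IsClosedImmersion i ∧ i ≫ PPtoSpec k N = s

end geomspecial

end Pool.Agent.Helper8.SPV
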