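import Pool.Agent.Helper8.SPV.NDefs
import Pool.Agent.Helper8.SPV.Defs

/-! # Comparison of the two forms of the definitions -/

set_option autoImplicit false

namespace Pool.Agent.Helper8.SPN

open AlgebraicGeometry CategoryTheory CategoryTheory.Limits
open Pool.Agent.Helper8

variable {k : Type} [Field k] {X : Scheme.{0}}

theorem projVar_of {s : X ⟶ Spec (.of k)} (h : SPV.IsProjVar s) : IsProjVar s :=
  ⟨h.integral, h.projective⟩

theorem desing_of {X' : Scheme.{0}} {s : X ⟶ Spec (.of k)} {π : X' ⟶ X}
    (h : SPV.IsDesing s π) : IsDesing s π :=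
  ⟨h.integral, h.smooth, h.proper, h.birational⟩

theorem desing_to {X' : Scheme.{0}} {s : X ⟶ Spec (.of k)} {π : X' ⟶ X}
    (h : IsDesing s π) : SPV.IsDesing s π :=
  ⟨h.integral, h.smooth, h.proper, h.birational⟩

theorem curve_to {C : Scheme.{0}} {s : C ⟶ Spec (.of k)} (h : IsCurve s) : SPV.IsCurve s :=
  ⟨h.integral, h.smooth, h.quasiProjective⟩

theorem geom_to {s : X ⟶ Spec (.of k)} (h : IsGeomSpecial s) : SPV.IsGeomSpecial s := by
  intro U hU
  obtain ⟨C, sC, hC, c, u, f, hf, h1⟩ := h U hU
  exact ⟨C, sC, curve_to hC, c, u, f, hf, h1⟩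

/-- the subsheaf in the old form -/
noncomputable def toOld [IsIntegral X] (s : X ⟶ Spec (.of k)) (p : ℕ)
    (F : letI := algFF s
      RankOne (wedge (fun f : X.functionField => KaehlerDifferential.D k X.functionField f) p)
        (fun x : X => (algebraMap (X.presheaf.stalk x) X.functionField).range)) :
    SPV.RankOneSub s p where
  stalk := F.stalk
  stalk_le := F.stalk_le
  coherent := by
    intro x
    obtain ⟨U, G, hU, hx, h⟩ := F.coherent x
    exact ⟨⟨U, hU⟩, G, hx, h⟩
  gen := F.gen
  gen_ne := F.gen_ne
  rank_one := F.rank_one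

theorem toOld_frac [IsIntegral X] (s : X ⟶ Spec (.of k)) (p : ℕ)
    (F : letI := algFF s
      RankOne (wedge (fun f : X.functionField => KaehlerDifferential.D k X.functionField f) p)
        (fun x : X => (algebraMap (X.presheaf.stalk x) X.functionField).range)) (x : X) :
    (toOld s p F).frac x = (letI := algFF s; F.frac x) := by
  ext a
  rfl

theorem toOld_iitaka [IsIntegral X] (s : X ⟶ Spec (.of k)) (p : ℕ)
    (F : letI := algFF s
      RankOne (wedge (fun f : X.functionField => KaehlerDifferential.D k X.functionField f) p)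
        (fun x : X => (algebraMap (X.presheaf.stalk x) X.functionField).range)) :
    (toOld s p F).iitakaDim =
      (letI := algFF s; F.iitakaDim k (fun x => ringKrullDim (X.presheaf.stalk x) = 1)) := by
  have h : ∀ m, (toOld s p F).sections m =
      (letI := algFF s; F.sections (fun x => ringKrullDim (X.presheaf.stalk x) = 1) m) := by
    intro m
    unfold SPV.RankOneSub.sections RankOne.sections
    have h1 : (toOld s p F).frac = fun x => (letI := algFF s; F.frac x) :=
      funext fun x => toOld_frac s p F x
    rw [h1]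
    rfl
  unfold SPV.RankOneSub.iitakaDim RankOne.iitakaDim
  simp only [h]
  rfl

theorem good_of [IsIntegral X] {s : X ⟶ Spec (.of k)} (h : SPV.NoBogomolov s) : Good s := by
  intro p hp F
  have h1 := h p hp (toOld s p F)
  rw [toOld_iitaka] at h1
  exact h1

theorem special_of {s : X ⟶ Spec (.of k)} (h : SPV.IsSpecial s) : IsSpecial s := by
  obtain ⟨⟨X', π, h1⟩, h2⟩ := h
  refine ⟨⟨X', π, desing_of h1⟩, ?_⟩
  intro X'' π' hi hd
  exact good_of (h2 X'' π' (desing_to hd))

end Pool.Agent.Helper8.SPN
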