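import Mathlib
import Pool.Agent.Helper71.GonDefs

/-! # Special and geometrically-special varieties: definitions -/

set_option autoImplicit false

namespace Pool.Agent.Helper8.SPN

open AlgebraicGeometry CategoryTheory CategoryTheory.Limits
open Pool.Agent.Helper71 (PP PPtoSpec)

/-! ## Rank one coherent subsheaves of a locally free sheaf, and their Iitaka dimension

The integral scheme `X` has function field `L`, the set of its points is `P`, and `A x` is the local
ring at `x`, a subring of `L`. A locally free sheaf is a family of `A x`-lattices in the `L`-vector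
space `V`. Here the lattice at `x` is generated over `A x` by the `d f`, where the `f i` are in
`A x`: later `V` is the space of the `p`-forms of `L`, and `d f` is `df_1 ∧ ... ∧ df_p`. -/

section sheaf

variable {k L V P : Type} [Field k] [Field L] [Algebra k L] [AddCommGroup V] [Module L V]
  [TopologicalSpace P]

/-- The `A`-submodule of `V` generated by the `d f` with all `f i` in `A`. -/
def lattice {p : ℕ} (d : (Fin p → L) → V) (A : Subring L) : Submodule A V :=
  Submodule.span A {v | ∃ f : Fin p → L, (∀ i, f i ∈ A) ∧ v = d f}

/-- A coherent subsheaf of rank one of the sheaf with stalks `lattice d (A x)`, given by its stalks.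
It is coherent: locally it is generated by finitely many sections. It is of rank one: over `L` its
stalks span the line of a nonzero vector `gen`. -/
structure RankOne {p : ℕ} (d : (Fin p → L) → V) (A : P → Subring L) where
  /-- the stalks -/
  stalk : ∀ x : P, Submodule (A x) V
  stalk_le : ∀ x, stalk x ≤ lattice d (A x)
  coherent : ∀ x : P, ∃ (U : Set P) (G : Finset V), IsOpen U ∧ x ∈ U ∧
    ∀ y ∈ U, stalk y = Submodule.span (A y) (G : Set V)
  /-- a generator of the stalk at the generic point -/
  gen : V
  gen_ne : gen ≠ 0
  rank_one : ∀ x : P, Submodule.span L (stalk x : Set V) = Submodule.span L {gen}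

variable {p : ℕ} {d : (Fin p → L) → V} {A : P → Subring L}

/-- The fractional ideal of the `a` with `a • gen` in `F_x`: thus `F_x` is this ideal times
`gen`. -/
def RankOne.frac (F : RankOne d A) (x : P) : Submodule (A x) L :=
  (F.stalk x).comap ((LinearMap.toSpanSingleton L V F.gen).restrictScalars (A x))

/-- The global sections of the reflexive hull of the `m`-th tensor power of `F`: the section
`a • gen ^ ⊗ m` is represented by `a`, and it is a section of the reflexive hull iff it is in
the `m`-th power of `F` at every point `x` of codimension one (`c1 x`). -/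
def RankOne.sections (F : RankOne d A) (c1 : P → Prop) (m : ℕ) : Set L :=
  {a | ∀ x : P, c1 x → a ∈ F.frac x ^ m}

variable (k) in
/-- The Iitaka dimension of `F`: the supremum over the `m ≥ 1`, for which the reflexive hull of
the `m`-th tensor power of `F` has a nonzero section, of the transcendence degree over `k` of the
field generated by the quotients of its sections (the dimension of the image of the rational map
given by these sections). It is `⊥` (that is, `-∞`) if there is no such `m`. -/
noncomputable def RankOne.iitakaDim (F : RankOne d A) (c1 : P → Prop) : WithBot ℕ∞ :=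
  ⨆ (m : ℕ) (_ : 1 ≤ m ∧ ∃ a ∈ F.sections c1 m, a ≠ 0),
    ((Cardinal.toENat (Algebra.trdeg k (IntermediateField.adjoin k
      {c : L | ∃ a ∈ F.sections c1 m, ∃ a' ∈ F.sections c1 m, c = a / a'})) : ℕ∞) :
        WithBot ℕ∞)

end sheaf

/-! ## Special varieties -/

section bog

variable (k : Type) {L M P : Type} [Field k] [Field L] [Algebra k L] [AddCommGroup M] [Module L M]
  [TopologicalSpace P]

/-- The element `D f_1 ∧ ... ∧ D f_p` of the `p`-th exterior power of `M`. -/
noncomputable def wedge (D : L → M) (p : ℕ) (f : Fin p → L) : ⋀[L]^p M :=
  exteriorPower.ιMulti L p fun i => D (f i)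

/-- For every `p ≥ 1`, every rank one coherent subsheaf of the sheaf of `p`-forms has Iitaka
dimension at most `p - 1`. Here `M` is the space of differentials of `L`, with the universal
derivation `D`, and `A x` is the local ring at the point `x`. -/
def NoBogomolov (D : L → M) (A : P → Subring L) (c1 : P → Prop) : Prop :=
  ∀ p : ℕ, 1 ≤ p → ∀ F : RankOne (wedge D p) A, F.iitakaDim k c1 < (p : WithBot ℕ∞)

end bog

section special

variable {k : Type} [Field k] {X : Scheme.{0}}

/-- The function field of the integral scheme `X` over `k` (with structure morphism `s`), as an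
algebra over `k`. -/
noncomputable abbrev algFF [IsIntegral X] (s : X ⟶ Spec (.of k)) : Algebra k X.functionField :=
  ((Scheme.ΓSpecIso (.of k)).inv ≫ s.appTop ≫
    X.presheaf.germ ⊤ (genericPoint X) trivial).hom.toAlgebra

/-- The condition of Bogomolov and Campana for the smooth integral scheme `X` over `k`: for every
`p ≥ 1`, every rank one coherent subsheaf of the sheaf of `p`-forms has Iitaka dimension at most
`p - 1`. The local ring at `x` is the image of the stalk in the function field. -/
def Good [IsIntegral X] (s : X ⟶ Spec (.of k)) : Prop :=
  letI := algFF s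
  NoBogomolov k (fun f : X.functionField => KaehlerDifferential.D k X.functionField f)
    (fun x : X => (algebraMap (X.presheaf.stalk x) X.functionField).range)
    (fun x => ringKrullDim (X.presheaf.stalk x) = 1)

/-- `π : X' → X` is a desingularization of the variety `X` over `k` (with structure
morphism `s`): `X'` is a smooth variety over `k`, and `π` is proper and an isomorphism over a
nonempty open subset of `X`. -/
structure IsDesing {X' : Scheme.{0}} (s : X ⟶ Spec (.of k)) (π : X' ⟶ X) : Prop where
  integral : IsIntegral X'
  smooth : Smooth (π ≫ s)
  proper : IsProper π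
  birational : ∃ U : X.Opens, (U : Set X).Nonempty ∧ IsIso (π ∣_ U)

/-- The proper variety `X` over `k` (with structure morphism `s`) is special: it has a
desingularization, and on every desingularization every rank one coherent subsheaf of the
sheaf of `p`-forms, `p ≥ 1`, has Iitaka dimension at most `p - 1`. -/
def IsSpecial (s : X ⟶ Spec (.of k)) : Prop :=
  (∃ (X' : Scheme.{0}) (π : X' ⟶ X), IsDesing s π) ∧
    ∀ (X' : Scheme.{0}) (π : X' ⟶ X) (_ : IsIntegral X'), IsDesing s π → Good (π ≫ s)

end special

/-! ## Geometrically-special varieties -/

section geomspecial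

variable {k : Type} [Field k]

/-- `X` (with structure morphism `s`) is a projective variety over `k`. -/
structure IsProjVar {X : Scheme.{0}} (s : X ⟶ Spec (.of k)) : Prop where
  integral : IsIntegral X
  projective : ∃ (N : ℕ) (i : X ⟶ PP k N), IsClosedImmersion i ∧ i ≫ PPtoSpec k N = s

/-- `C` (with structure morphism `sC`) is a smooth quasi-projective curve over `k`. -/
structure IsCurve {C : Scheme.{0}} (sC : C ⟶ Spec (.of k)) : Prop where
  integral : IsIntegral C
  smooth : SmoothOfRelativeDimension 1 sC
  quasiProjective : ∃ (N : ℕ) (i : C ⟶ PP k N), IsImmersion i ∧ i ≫ PPtoSpec k N = sC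

/-- `X` (with structure morphism `s`) is geometrically-special over `k`: for every dense open
subset `U` of `X` there are a smooth quasi-projective connected curve `C`, points `c ∈ C(k)` and
`u ∈ U(k)`, and morphisms `f_1, f_2, ... : C → X` over `k` with `f_i(c) = u` such that the union
of their graphs is dense in `C × X`. -/
def IsGeomSpecial {X : Scheme.{0}} (s : X ⟶ Spec (.of k)) : Prop :=
  ∀ U : X.Opens, Dense (U : Set X) →
    ∃ (C : Scheme.{0}) (sC : C ⟶ Spec (.of k)) (_ : IsCurve sC)
      (c : Spec (.of k) ⟶ C) (u : Spec (.of k) ⟶ X) (f : ℕ → (C ⟶ X))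
      (hf : ∀ i, 𝟙 C ≫ sC = f i ≫ s),
      c ≫ sC = 𝟙 _ ∧ u ≫ s = 𝟙 _ ∧ Set.range u ⊆ (U : Set X) ∧ (∀ i, c ≫ f i = u) ∧
      closure (⋃ i, Set.range (pullback.lift (𝟙 C) (f i) (hf i))) = Set.univ

end geomspecial

end Pool.Agent.Helper8.SPN
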