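import Mathlib

/-! # Places of function fields of one variable, and the elliptic surface: definitions -/

set_option autoImplicit false

namespace Pool.Agent.Helper8.SPV

/-- `K` is a function field of one variable over `k`. -/
def IsFF (k K : Type) [Field k] [Field K] [Algebra k K] : Prop :=
  ∃ x : K, Transcendental k x ∧ FiniteDimensional (IntermediateField.adjoin k {x}) K

/-- A place of `K` over `k`: a valuation subring of `K` containing `k`, different from `K`. -/
structure Pl (k K : Type) [Field k] [Field K] [Algebra k K] where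
  O : ValuationSubring K
  mem : ∀ c : k, algebraMap k K c ∈ O
  ne : O ≠ ⊤

namespace Pl

variable {k K : Type} [Field k] [Field K] [Algebra k K] (p : Pl k K)

/-- `f` is in the maximal ideal -/
def M (f : K) : Prop := f ∈ p.O ∧ (f = 0 ∨ f⁻¹ ∉ p.O)

/-- `f` is a unit of the valuation ring -/
def U (f : K) : Prop := f ≠ 0 ∧ f ∈ p.O ∧ f⁻¹ ∈ p.O

/-- `z` is a uniformizer -/
def Unif (z : K) : Prop := z ≠ 0 ∧ p.M z ∧ ∀ f : K, p.M f → f / z ∈ p.O

open Classical in
/-- a chosen uniformizer -/
noncomputable def z : K := if h : ∃ z : K, p.Unif z then h.choose else 1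

open Classical in
/-- the order of `f` at `p` (zero for `f = 0`) -/
noncomputable def ord (f : K) : ℤ :=
  if h : ∃ n : ℤ, p.U (f * p.z ^ (-n)) then h.choose else 0

/-- `f` has order at least `n` -/
def Ge (n : ℤ) (f : K) : Prop := f = 0 ∨ n ≤ p.ord f

/-- All the basic laws. -/
structure Laws : Prop where
  unif : p.Unif p.z
  ord_z : p.ord p.z = 1
  ord_mul : ∀ f g : K, f ≠ 0 → g ≠ 0 → p.ord (f * g) = p.ord f + p.ord g
  ord_add : ∀ f g : K, f ≠ 0 → g ≠ 0 → f + g ≠ 0 → min (p.ord f) (p.ord g) ≤ p.ord (f + g)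
  mem_iff : ∀ f : K, f ≠ 0 → (f ∈ p.O ↔ 0 ≤ p.ord f)
  ord_const : ∀ c : k, p.ord (algebraMap k K c) = 0
  res : ∀ f : K, f ∈ p.O → ∃ c : k, p.M (f - algebraMap k K c)

/-- the number of poles, with multiplicity, of a function -/
noncomputable def poles (f : K) : ℤ := ∑ᶠ p : Pl k K, max 0 (-p.ord f)

/-- `- ord_p (δ z_p)`: for a derivation `δ` over `k`, this is the order at `p` of the
differential dual to `δ` -/
noncomputable def rr (δ : Derivation k K K) : ℤ := -p.ord (δ p.z)

/-- the degree of the canonical divisor, if `δ ≠ 0` -/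
noncomputable def kap (δ : Derivation k K K) : ℤ := ∑ᶠ p : Pl k K, p.rr δ

end Pl

/-! ## The base field -/

/-- `k` is algebraic over `k0(b_0, ..., b_9)`, and `b_0, ..., b_9` are algebraically independent
over `k0`. -/
structure BD (k0 k : Type) [Field k0] [Field k] [Algebra k0 k] (b : Fin 10 → k) : Prop where
  indep : AlgebraicIndependent k0 b
  alg : Algebra.IsAlgebraic (IntermediateField.adjoin k0 (Set.range b)) k

section surface

variable {k K : Type} [Field k] [Field K] [Algebra k K]

/-- `Q(t) = ∑ b_j t^j` -/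
noncomputable def Qf (b : Fin 10 → k) (t : K) : K := ∑ j : Fin 10, algebraMap k K (b j) * t ^ (j : ℕ)

/-- `Q'(t) = ∑ j b_j t^(j-1)` -/
noncomputable def Qd (b : Fin 10 → k) (t : K) : K :=
  ∑ j : Fin 10, ((j : ℕ) : K) * algebraMap k K (b j) * t ^ ((j : ℕ) - 1)

/-- `(T, W, X, Y)` is a point of the surface `w² = t³ + 1, y² = x³ + x + Q(t)` -/
structure Pt (b : Fin 10 → k) (T W X Y : K) : Prop where
  e1 : W ^ 2 = T ^ 3 + 1
  e2 : Y ^ 2 = X ^ 3 + X + Qf b T

/-- `L` is the function field of the surface, with generic point `(t, w, x, y)` -/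
structure ES (b : Fin 10 → k) (t w x y : K) : Prop where
  pt : Pt b t w x y
  indep : AlgebraicIndependent k ![t, x]
  gen : IntermediateField.adjoin k {t, w, x, y} = ⊤

end surface

/-- The derivations of `K`: `δ` over `k` with `δ T = 2 W`, and the extensions `D_j` of the
partial derivatives `∂/∂b_j` of `k` with `D_j T = 0`. -/
structure Ders (k0 : Type) {k K : Type} [Field k0] [Field k] [Field K] [Algebra k0 k] [Algebra k K]
    [Algebra k0 K] (b : Fin 10 → k) (T W : K) where
  δ : Derivation k K K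
  δT : δ T = 2 * W
  δW : δ W = 3 * T ^ 2
  D : Fin 10 → Derivation k0 K K
  Db : ∀ i j, D j (algebraMap k K (b i)) = if i = j then 1 else 0
  DT : ∀ j, D j T = 0
  DW : ∀ j, D j W = 0
  Dk : ∀ j (c : k), ∃ c' : k, D j (algebraMap k K c) = algebraMap k K c'
  span : ∀ (D' : Derivation k0 K K) (f : K),
    D' f = ∑ j : Fin 10, D' (algebraMap k K (b j)) * D j f + D' T / (2 * W) * δ f

end Pool.Agent.Helper8.SPV
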