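import Pool.Agent.Helper8.SPV.PDefs

/-! # Statements: fields, places, the elliptic surface over a function field -/

set_option autoImplicit false

namespace Pool.Agent.Helper8.SPV

open IntermediateField (adjoin)

/-! ## A. Fields and derivations -/

/-- extension of derivations in characteristic zero -/
def ST_DEREXT : Prop :=
  ∀ (F K : Type) [Field F] [Field K] [CharZero F] [Algebra F K] (D : Derivation ℤ F K),
    (∃ D' : Derivation ℤ K K, ∀ a, D' (algebraMap F K a) = D a) ∧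
    ∀ T : K, Transcendental F T → ∀ u : K,
      ∃ D' : Derivation ℤ K K, (∀ a, D' (algebraMap F K a) = D a) ∧ D' T = u

/-- a derivation which vanishes on a subfield vanishes on elements algebraic over it; a derivation
which preserves a subfield `S` preserves `S(a)`, `a` algebraic over `S` -/
def ST_DERALG : Prop :=
  (∀ (F K : Type) [Field F] [Field K] [CharZero F] [Algebra F K] (D : Derivation F K K) (a : K),
    IsAlgebraic F a → D a = 0) ∧
  ∀ (K : Type) [Field K] [CharZero K] (D : Derivation ℤ K K) (S : Subfield K),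
    (∀ c ∈ S, D c ∈ S) → ∀ A : Set K, (∀ a ∈ A, IsAlgebraic S a) →
      ∀ c ∈ Subfield.closure ((S : Set K) ∪ A), D c ∈ Subfield.closure ((S : Set K) ∪ A)

/-- existence of the base data -/
def ST_BDEX : Prop :=
  ∀ (k : Type) [Field k] [IsAlgClosed k] [CharZero k], 10 ≤ Algebra.trdeg ℚ k →
    ∃ (k0 : Type) (_ : Field k0) (_ : IsAlgClosed k0) (_ : Algebra k0 k) (b : Fin 10 → k),
      BD k0 k b

/-- the partial derivatives `∂/∂b_j` of `k` over `k0` -/
def ST_PD : Prop :=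
  ∀ (k0 k : Type) [Field k0] [Field k] [CharZero k] [Algebra k0 k] (b : Fin 10 → k),
    BD k0 k b → ∃ P : Fin 10 → Derivation k0 k k, ∀ i j, P j (b i) = if i = j then 1 else 0

/-- genericity: where `Q(t)` is in `k0`, it is a local coordinate of the curve `E` -/
def ST_G1 : Prop :=
  ∀ (k0 k : Type) [Field k0] [IsAlgClosed k0] [Field k] [CharZero k] [Algebra k0 k]
    (b : Fin 10 → k), BD k0 k b → ∀ (t1 w1 : k) (c : k0), w1 ^ 2 = t1 ^ 3 + 1 →
      Qf b t1 = algebraMap k0 k c → 2 * w1 * Qd b t1 ≠ 0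

/-- the derivations of `K` -/
def ST_DER : Prop :=
  ∀ (k0 k K : Type) [Field k0] [Field k] [IsAlgClosed k] [CharZero k] [Field K] [Algebra k0 k]
    [Algebra k K] [Algebra k0 K] [IsScalarTower k0 k K] (b : Fin 10 → k), BD k0 k b → IsFF k K →
    ∀ T W : K, W ^ 2 = T ^ 3 + 1 → Transcendental k T → Nonempty (Ders k0 b T W)

/-! ## B. Places -/

section places

/-- basic laws -/
def ST_PL1 : Prop :=
  ∀ (k K : Type) [Field k] [IsAlgClosed k] [CharZero k] [Field K] [Algebra k K], IsFF k K →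
    ∀ p : Pl k K, p.Laws

/-- all transcendental elements are as good as `x` -/
def ST_FFT : Prop :=
  ∀ (k K : Type) [Field k] [IsAlgClosed k] [CharZero k] [Field K] [Algebra k K], IsFF k K →
    ∀ f : K, Transcendental k f → FiniteDimensional (adjoin k {f}) K

/-- the valuation ring of a place is a localization of a finitely generated algebra -/
def ST_PLFT : Prop :=
  ∀ (k K : Type) [Field k] [IsAlgClosed k] [CharZero k] [Field K] [Algebra k K], IsFF k K →
    ∀ p : Pl k K, ∃ S : Finset K, (∀ f ∈ S, f ∈ p.O) ∧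
      ∀ f ∈ p.O, ∃ a ∈ Algebra.adjoin k (S : Set K), ∃ d ∈ Algebra.adjoin k (S : Set K),
        p.U d ∧ f * d = a

/-- a function has finitely many zeros and poles -/
def ST_PL2 : Prop :=
  ∀ (k K : Type) [Field k] [IsAlgClosed k] [CharZero k] [Field K] [Algebra k K], IsFF k K →
    ∀ f : K, f ≠ 0 → {p : Pl k K | p.ord f ≠ 0}.Finite

/-- the number of poles is the degree -/
def ST_PL4 : Prop :=
  ∀ (k K : Type) [Field k] [IsAlgClosed k] [CharZero k] [Field K] [Algebra k K], IsFF k K →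
    ∀ f : K, Transcendental k f → Pl.poles (k := k) f = (Module.finrank (adjoin k {f}) K : ℤ)

/-- a function without poles is constant -/
def ST_PL5 : Prop :=
  ∀ (k K : Type) [Field k] [IsAlgClosed k] [CharZero k] [Field K] [Algebra k K], IsFF k K →
    ∀ f : K, (∀ p : Pl k K, f ∈ p.O) → ∃ c : k, f = algebraMap k K c

/-- the sum of the orders of a function is zero -/
def ST_PL3 : Prop :=
  ∀ (k K : Type) [Field k] [IsAlgClosed k] [CharZero k] [Field K] [Algebra k K], IsFF k K →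
    ∀ f : K, f ≠ 0 → ∑ᶠ p : Pl k K, p.ord f = 0

/-- subfields are function fields -/
def ST_SUBFF : Prop :=
  ∀ (k K : Type) [Field k] [IsAlgClosed k] [CharZero k] [Field K] [Algebra k K], IsFF k K →
    ∀ M : IntermediateField k K, (∃ f ∈ M, Transcendental k f) →
      IsFF k M ∧ FiniteDimensional M K

/-- the fundamental identity `∑ e = [K : M]` -/
def ST_PL6 : Prop :=
  ∀ (k K : Type) [Field k] [IsAlgClosed k] [CharZero k] [Field K] [Algebra k K], IsFF k K →
    ∀ M : IntermediateField k K, IsFF k M → ∀ q : Pl k M,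
      {p : Pl k K | p.O.comap (algebraMap M K) = q.O}.Finite ∧
      ∑ᶠ (p : Pl k K) (_ : p.O.comap (algebraMap M K) = q.O), p.ord (q.z : K) =
        (Module.finrank M K : ℤ)

/-- the restriction of a place -/
def ST_PLR : Prop :=
  ∀ (k K : Type) [Field k] [IsAlgClosed k] [CharZero k] [Field K] [Algebra k K], IsFF k K →
    ∀ M : IntermediateField k K, IsFF k M → ∀ p : Pl k K, ∃ q : Pl k M,
      p.O.comap (algebraMap M K) = q.O ∧ 1 ≤ p.ord (q.z : K) ∧
        ∀ f : M, p.ord (f : K) = p.ord (q.z : K) * q.ord f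

/-- the number of poles in `K` and in `M` -/
def ST_PLM : Prop :=
  ∀ (k K : Type) [Field k] [IsAlgClosed k] [CharZero k] [Field K] [Algebra k K], IsFF k K →
    ∀ M : IntermediateField k K, IsFF k M → ∀ f : M,
      Pl.poles (k := k) (f : K) = Module.finrank M K * Pl.poles (k := k) f

/-- a derivation over `k` is an isomorphism on almost all cotangent spaces -/
def ST_PL7 : Prop :=
  ∀ (k K : Type) [Field k] [IsAlgClosed k] [CharZero k] [Field K] [Algebra k K], IsFF k K →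
    ∀ δ : Derivation k K K, δ ≠ 0 → {p : Pl k K | p.rr δ ≠ 0}.Finite

/-- Derivations which preserve `k` and do not give a pole to a uniformizer preserve the valuation
ring. -/
def ST_REG : Prop :=
  ∀ (k K : Type) [Field k] [IsAlgClosed k] [CharZero k] [Field K] [Algebra k K], IsFF k K →
    ∀ (p : Pl k K) (D : Derivation ℤ K K) (z : K), (∀ c : k, D (algebraMap k K c) ∈ p.O) →
      p.Unif z → D z ∈ p.O → ∀ f ∈ p.O, D f ∈ p.O

/-- derivations over `k`: the space of derivations is one-dimensional, the order of `δ f` -/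
def ST_DER1 : Prop :=
  ∀ (k K : Type) [Field k] [IsAlgClosed k] [CharZero k] [Field K] [Algebra k K], IsFF k K →
    (∀ δ : Derivation k K K, δ ≠ 0 → ∀ f : K, δ f = 0 → ∃ c : k, f = algebraMap k K c) ∧
    (∀ δ δ' : Derivation k K K, δ ≠ 0 → ∃ g : K, ∀ f, δ' f = g * δ f) ∧
    (∀ δ : Derivation k K K, δ ≠ 0 → ∀ (p : Pl k K) (f : K), p.Ge (p.ord f - 1 - p.rr δ) (δ f)) ∧
    ∀ δ : Derivation k K K, δ ≠ 0 → ∀ (p : Pl k K) (f : K), p.ord f ≠ 0 →
      δ f ≠ 0 ∧ p.ord (δ f) = p.ord f - 1 - p.rr δ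

/-- the degree of the canonical divisor does not depend on the derivation -/
def ST_KAPIND : Prop :=
  ∀ (k K : Type) [Field k] [IsAlgClosed k] [CharZero k] [Field K] [Algebra k K], IsFF k K →
    ∀ δ δ' : Derivation k K K, δ ≠ 0 → δ' ≠ 0 → Pl.kap δ = Pl.kap δ'

/-- Riemann-Hurwitz (inequality) -/
def ST_RH : Prop :=
  ∀ (k K : Type) [Field k] [IsAlgClosed k] [CharZero k] [Field K] [Algebra k K], IsFF k K →
    ∀ M : IntermediateField k K, IsFF k M → ∀ (δ : Derivation k K K) (δ' : Derivation k M M),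
      δ ≠ 0 → (∀ f : M, δ (f : K) = (δ' f : K)) →
      (Module.finrank M K : ℤ) * Pl.kap δ' ≤ Pl.kap δ

/-- the conditions of having no pole are of codimension at most the order of the poles -/
def ST_CODIM : Prop :=
  ∀ (k K : Type) [Field k] [IsAlgClosed k] [CharZero k] [Field K] [Algebra k K], IsFF k K →
    ∀ (V : Submodule k K) [FiniteDimensional k V] (φ : K →ₗ[k] K) (S : Finset (Pl k K))
      (a r : Pl k K → ℤ), (∀ p ∈ S, 0 ≤ r p) → (∀ F ∈ V, ∀ p ∈ S, p.Ge (a p - r p) (φ F)) →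
      ∀ V' : Submodule k K, (∀ F, F ∈ V' ↔ F ∈ V ∧ ∀ p ∈ S, p.Ge (a p) (φ F)) →
        (Module.finrank k V : ℤ) ≤ Module.finrank k V' + ∑ p ∈ S, r p

/-- Riemann-Roch spaces are finite-dimensional -/
def ST_LFIN : Prop :=
  ∀ (k K : Type) [Field k] [IsAlgClosed k] [CharZero k] [Field K] [Algebra k K], IsFF k K →
    ∀ G : Pl k K → ℤ, {p | G p ≠ 0}.Finite → ∃ V : Submodule k K, FiniteDimensional k V ∧
      ∀ f, f ∈ V ↔ ∀ p : Pl k K, p.Ge (-G p) f

end places

/-! ## C. The elliptic surface: the bound for the degree -/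

/-- The local lemma. -/
def ST_LOC : Prop :=
  ∀ (K : Type) [Field K] (O : ValuationSubring K) (D δ : Derivation ℤ K K)
    (a1 a2 a4 a6 lam psi X Y : K), (2 : K) ≠ 0 → (3 : K) ≠ 0 → (2 : K)⁻¹ ∈ O → (3 : K)⁻¹ ∈ O →
    a1 ∈ O → a2 ∈ O → a4 ∈ O → a6 ∈ O → lam ∈ O →
    (∀ f ∈ O, D f + a1 * δ f ∈ O) → (∀ f ∈ O, a2 * δ f ∈ O) →
    Y ^ 2 = X ^ 3 + a4 * X + a6 →
    D X = 2 * lam * X + 2 * Y * psi → D Y = 3 * lam * Y + (3 * X ^ 2 + a4) * psi →
    (X ∈ O → (Y ≠ 0 ∧ Y⁻¹ ∈ O) ∨ (3 * X ^ 2 + a4 ≠ 0 ∧ (3 * X ^ 2 + a4)⁻¹ ∈ O) ∨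
      (lam = 0 ∧ 2 * Y * δ Y - (3 * X ^ 2 + a4) * δ X ≠ 0 ∧
        (2 * Y * δ Y - (3 * X ^ 2 + a4) * δ X)⁻¹ ∈ O)) →
    a2 * psi ∈ O

section sit

variable {k0 k K : Type} [Field k0] [Field k] [Field K] [Algebra k0 k] [Algebra k K] [Algebra k0 K]

/-- `Q'(T) * 2 W = δ (Q(T))` -/
noncomputable def gg (b : Fin 10 → k) (T W : K) : K := 2 * W * Qd b T

/-- the obstruction `ζ_j` -/
noncomputable def zeta {b : Fin 10 → k} {T W : K} (d : Ders k0 b T W) (X Y : K) (j : Fin 9) : K :=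
  (T * d.D j.castSucc X - d.D j.succ X) / (2 * Y)

/-- the obstruction `ψ` -/
noncomputable def psi {b : Fin 10 → k} {T W : K} (d : Ders k0 b T W) (X Y : K) : K :=
  (gg b T W * d.D 0 X - d.δ X) / (2 * Y)

end sit

/-- elementary identities -/
def ST_ID : Prop :=
  ∀ (k0 k K : Type) [Field k0] [Field k] [IsAlgClosed k] [CharZero k] [Field K] [Algebra k0 k]
    [Algebra k K] [Algebra k0 K] [IsScalarTower k0 k K] (b : Fin 10 → k) (T W X Y : K)
    (d : Ders k0 b T W), Pt b T W X Y → Transcendental k T → Transcendental k (Qf b T) →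
    (Y ≠ 0 ∨ 3 * X ^ 2 + 1 ≠ 0) ∧ W ≠ 0 ∧
    d.δ (Qf b T) = gg b T W ∧ (∀ j, d.D j (Qf b T) = T ^ (j : ℕ)) ∧
    (∀ j, T * d.D j.castSucc X - d.D j.succ X = 2 * Y * zeta d X Y j ∧
      T * d.D j.castSucc Y - d.D j.succ Y = (3 * X ^ 2 + 1) * zeta d X Y j) ∧
    (gg b T W * d.D 0 X - d.δ X = 2 * Y * psi d X Y ∧
      gg b T W * d.D 0 Y - d.δ Y = (3 * X ^ 2 + 1) * psi d X Y) ∧
    2 * Y * d.δ Y - (3 * X ^ 2 + 1) * d.δ X = gg b T W

/-- `Q(T)` is transcendental -/
def ST_TR : Prop :=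
  ∀ (k0 k K : Type) [Field k0] [Field k] [Field K] [Algebra k0 k]
    [Algebra k K] (b : Fin 10 → k), BD k0 k b → ∀ T : K, Transcendental k T →
      Transcendental k (Qf b T)

/-- regularity of the corrected derivations at all places -/
def ST_CORR : Prop :=
  ∀ (k0 k K : Type) [Field k0] [Field k] [IsAlgClosed k] [CharZero k] [Field K] [Algebra k0 k]
    [Algebra k K] [Algebra k0 K] [IsScalarTower k0 k K] (b : Fin 10 → k) (T W : K)
    (d : Ders k0 b T W), IsFF k K → W ^ 2 = T ^ 3 + 1 → Transcendental k T → ∀ p : Pl k K,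
    d.δ p.z ≠ 0 ∧ (d.δ p.z)⁻¹ ∈ p.O ∧ 0 ≤ p.rr d.δ ∧
    (∀ f ∈ p.O, (d.δ p.z)⁻¹ * d.δ f ∈ p.O) ∧
    ∀ j, d.D j p.z / d.δ p.z ∈ p.O ∧
      ∀ f ∈ p.O, d.D j f - d.D j p.z / d.δ p.z * d.δ f ∈ p.O

/-- the curve `E` at infinity -/
def ST_EINF : Prop :=
  ∀ (k K : Type) [Field k] [IsAlgClosed k] [CharZero k] [Field K]
    [Algebra k K] (b : Fin 10 → k) (T W : K) (δ : Derivation k K K), IsFF k K →
    W ^ 2 = T ^ 3 + 1 → Transcendental k T → δ T = 2 * W → δ W = 3 * T ^ 2 →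
    ∀ p : Pl k K, T ∉ p.O →
    ∃ e : ℤ, 1 ≤ e ∧ p.ord T = -2 * e ∧ p.ord W = -3 * e ∧ p.ord (T / W) = e ∧
      δ (T / W) = -1 + 3 * (1 / W) ^ 2 ∧ p.U (δ (T / W)) ∧
      (b 9 ≠ 0 → p.M ((T / W) ^ 18 * Qf b T - algebraMap k K (b 9)) ∧ p.ord (Qf b T) = -18 * e ∧
        p.ord (Qd b T) = -16 * e)

/-- local bound for `ζ` -/
def ST_Z1F : Prop :=
  ∀ (k0 k K : Type) [Field k0] [IsAlgClosed k0] [Field k] [IsAlgClosed k] [CharZero k] [Field K]
    [Algebra k0 k] [Algebra k K] [Algebra k0 K] [IsScalarTower k0 k K] (b : Fin 10 → k)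
    (T W X Y : K) (d : Ders k0 b T W), BD k0 k b → IsFF k K → Pt b T W X Y → Transcendental k T →
    ∀ p : Pl k K, T ∈ p.O → ∀ j, (d.δ p.z)⁻¹ * zeta d X Y j ∈ p.O

def ST_Z1I : Prop :=
  ∀ (k0 k K : Type) [Field k0] [IsAlgClosed k0] [Field k] [IsAlgClosed k] [CharZero k] [Field K]
    [Algebra k0 k] [Algebra k K] [Algebra k0 K] [IsScalarTower k0 k K] (b : Fin 10 → k)
    (T W X Y : K) (d : Ders k0 b T W), BD k0 k b → IsFF k K → Pt b T W X Y → Transcendental k T →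
    ∀ p : Pl k K, T ∉ p.O → ∀ j, (d.δ p.z)⁻¹ * ((T / W)⁻¹ * zeta d X Y j) ∈ p.O

/-- if the degree is large then `ζ = 0` -/
def ST_Z1 : Prop :=
  ∀ (k0 k K : Type) [Field k0] [IsAlgClosed k0] [Field k] [IsAlgClosed k] [CharZero k] [Field K]
    [Algebra k0 k] [Algebra k K] [Algebra k0 K] [IsScalarTower k0 k K] (b : Fin 10 → k)
    (T W X Y : K) (d : Ders k0 b T W), BD k0 k b → IsFF k K → Pt b T W X Y → Transcendental k T →
    2 * Pl.kap d.δ < Pl.poles (k := k) T → ∀ j, zeta d X Y j = 0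

/-- local bounds for `ψ` -/
def ST_Z2F : Prop :=
  ∀ (k0 k K : Type) [Field k0] [IsAlgClosed k0] [Field k] [IsAlgClosed k] [CharZero k] [Field K]
    [Algebra k0 k] [Algebra k K] [Algebra k0 K] [IsScalarTower k0 k K] (b : Fin 10 → k)
    (T W X Y : K) (d : Ders k0 b T W), BD k0 k b → IsFF k K → Pt b T W X Y → Transcendental k T →
    ∀ p : Pl k K, T ∈ p.O → (d.δ p.z)⁻¹ * psi d X Y ∈ p.O

def ST_Z2I : Prop :=
  ∀ (k0 k K : Type) [Field k0] [IsAlgClosed k0] [Field k] [IsAlgClosed k] [CharZero k] [Field K]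
    [Algebra k0 k] [Algebra k K] [Algebra k0 K] [IsScalarTower k0 k K] (b : Fin 10 → k)
    (T W X Y : K) (d : Ders k0 b T W), BD k0 k b → IsFF k K → Pt b T W X Y → Transcendental k T →
    (∀ j, zeta d X Y j = 0) →
    ∀ p : Pl k K, T ∉ p.O → (d.δ p.z)⁻¹ * ((T / W)⁻¹ ^ 2 * psi d X Y) ∈ p.O

/-- if the degree is large then `ψ = 0` -/
def ST_Z2 : Prop :=
  ∀ (k0 k K : Type) [Field k0] [IsAlgClosed k0] [Field k] [IsAlgClosed k] [CharZero k] [Field K]
    [Algebra k0 k] [Algebra k K] [Algebra k0 K] [IsScalarTower k0 k K] (b : Fin 10 → k)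
    (T W X Y : K) (d : Ders k0 b T W), BD k0 k b → IsFF k K → Pt b T W X Y → Transcendental k T →
    2 * Pl.kap d.δ < Pl.poles (k := k) T → (∀ j, zeta d X Y j = 0) → psi d X Y = 0

/-- then `X` and `Y` are algebraic over `k0(Q(T))` -/
def ST_A2 : Prop :=
  ∀ (k0 k K : Type) [Field k0] [IsAlgClosed k0] [Field k] [IsAlgClosed k] [CharZero k] [Field K]
    [Algebra k0 k] [Algebra k K] [Algebra k0 K] [IsScalarTower k0 k K] (b : Fin 10 → k)
    (T W X Y : K) (d : Ders k0 b T W), BD k0 k b → IsFF k K → Pt b T W X Y → Transcendental k T →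
    (∀ j, zeta d X Y j = 0) → psi d X Y = 0 →
    IsAlgebraic (adjoin k0 {Qf b T}) X ∧ IsAlgebraic (adjoin k0 {Qf b T}) Y

/-- the curve `y² = x³ + x + u` has no point over `k(u)` -/
def ST_A3 : Prop :=
  ∀ (k K : Type) [Field k] [IsAlgClosed k] [CharZero k] [Field K] [Algebra k K] (u X Y : K),
    Transcendental k u → Y ^ 2 = X ^ 3 + X + u → X ∈ adjoin k {u} → Y ∈ adjoin k {u} → False

/-- the kernel of the powers of `d/dU` -/
def ST_KERN : Prop :=
  ∀ (k K : Type) [Field k] [IsAlgClosed k] [CharZero k] [Field K] [Algebra k K], IsFF k K →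
    ∀ (D : Derivation k K K) (u : K), D u = 1 → ∀ (N : ℕ) (f : K), (D^[N + 1]) f = 0 →
      f ∈ Submodule.span k (Set.range fun i : Fin (N + 1) => u ^ (i : ℕ))

/-- a basis of `k(U, X, Y)` over `k(U)`, integral over `k0[U]` -/
def ST_BASI : Prop :=
  ∀ (k0 k K : Type) [Field k0] [Field k] [CharZero k] [Field K]
    [Algebra k0 k] [Algebra k K] [Algebra k0 K] [IsScalarTower k0 k K] (u X Y : K),
    Transcendental k u → IsAlgebraic (adjoin k0 {u}) X → IsAlgebraic (adjoin k0 {u}) Y →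
    ∃ y : Fin (Module.finrank (adjoin k {u}) (adjoin (adjoin k {u}) {X, Y})) → K,
      LinearIndependent (adjoin k {u}) y ∧
      ∀ i, y i ∈ adjoin k0 {u, X, Y} ∧ IsIntegral (Algebra.adjoin k0 {u}) (y i)

/-- the derivation `d/dU` at the finite places -/
def ST_A4F : Prop :=
  ∀ (k0 k K : Type) [Field k0] [IsAlgClosed k0] [Field k] [IsAlgClosed k] [CharZero k] [Field K]
    [Algebra k0 k] [Algebra k K] [Algebra k0 K] [IsScalarTower k0 k K] (b : Fin 10 → k)
    (T W X Y : K) (d : Ders k0 b T W), BD k0 k b → IsFF k K → Pt b T W X Y → Transcendental k T →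
    IsAlgebraic (adjoin k0 {Qf b T}) X → IsAlgebraic (adjoin k0 {Qf b T}) Y →
    ∀ p : Pl k K, T ∈ p.O →
    ((∃ c : k0, p.M (Qf b T - algebraMap k0 K c)) →
      ∀ f ∈ p.O, p.Ge (-p.rr d.δ) ((gg b T W)⁻¹ * d.δ f)) ∧
    ((¬ ∃ c : k0, p.M (Qf b T - algebraMap k0 K c)) →
      ∀ y ∈ adjoin k0 {Qf b T, X, Y}, ∀ (P : Polynomial k) (n : ℕ),
        ((fun f => (gg b T W)⁻¹ * d.δ f)^[n]) (Polynomial.aeval (Qf b T) P * y) ∈ p.O)

/-- the derivation `d/dU` at the infinite places -/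
def ST_A4I : Prop :=
  ∀ (k0 k K : Type) [Field k0] [IsAlgClosed k0] [Field k] [IsAlgClosed k] [CharZero k] [Field K]
    [Algebra k0 k] [Algebra k K] [Algebra k0 K] [IsScalarTower k0 k K] (b : Fin 10 → k)
    (T W : K) (d : Ders k0 b T W), BD k0 k b → IsFF k K → W ^ 2 = T ^ 3 + 1 →
    Transcendental k T →
    (∀ p : Pl k K, T ∉ p.O → ∀ (m : ℤ) (f : K), p.Ge m f →
      p.Ge (m - 9 * p.ord T) ((gg b T W)⁻¹ * d.δ f)) ∧
    ∀ y : K, IsIntegral (Algebra.adjoin k0 {Qf b T}) y →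
      ∃ c : ℕ, ∀ p : Pl k K, T ∉ p.O → p.Ge (9 * c * p.ord T) y

/-- the degree of `k(U, X, Y)` over `k(U)` is at most `κ + 1` -/
def ST_A4 : Prop :=
  ∀ (k0 k K : Type) [Field k0] [IsAlgClosed k0] [Field k] [IsAlgClosed k] [CharZero k] [Field K]
    [Algebra k0 k] [Algebra k K] [Algebra k0 K] [IsScalarTower k0 k K] (b : Fin 10 → k)
    (T W X Y : K) (d : Ders k0 b T W), BD k0 k b → IsFF k K → Pt b T W X Y → Transcendental k T →
    IsAlgebraic (adjoin k0 {Qf b T}) X → IsAlgebraic (adjoin k0 {Qf b T}) Y →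
    (Module.finrank (adjoin k {Qf b T}) (adjoin (adjoin k {Qf b T}) {X, Y}) : ℤ) ≤
      Pl.kap d.δ + 1

/-- the degree of `k(T, W, X, Y)` over `k(T)` is at most twice that of `k(U, X, Y)` over `k(U)` -/
def ST_A5 : Prop :=
  ∀ (k K : Type) [Field k] [IsAlgClosed k] [CharZero k] [Field K] [Algebra k K] (T W u X Y : K),
    Transcendental k u → u ∈ adjoin k {T} → W ^ 2 = T ^ 3 + 1 → adjoin k {T, W, X, Y} = ⊤ →
    IsAlgebraic (adjoin k {u}) X → IsAlgebraic (adjoin k {u}) Y →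
    FiniteDimensional (adjoin k {T}) K ∧ Module.finrank (adjoin k {T}) K ≤
      2 * Module.finrank (adjoin k {u}) (adjoin (adjoin k {u}) {X, Y})

/-- The bound for `K = k(T, W, X, Y)`. -/
def ST_AGEN : Prop :=
  ∀ (k0 k K : Type) [Field k0] [IsAlgClosed k0] [Field k] [IsAlgClosed k] [CharZero k] [Field K]
    [Algebra k0 k] [Algebra k K] [Algebra k0 K] [IsScalarTower k0 k K] (b : Fin 10 → k)
    (T W X Y : K) (d : Ders k0 b T W), BD k0 k b → IsFF k K → Pt b T W X Y → Transcendental k T →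
    adjoin k {T, W, X, Y} = ⊤ → Pl.poles (k := k) T ≤ 4 * Pl.kap d.δ

/-- The degree is bounded. -/
def ST_AB : Prop :=
  ∀ (k0 k K : Type) [Field k0] [IsAlgClosed k0] [Field k] [IsAlgClosed k] [CharZero k] [Field K]
    [Algebra k0 k] [Algebra k K] (b : Fin 10 → k), BD k0 k b → IsFF k K →
    ∃ B : ℤ, ∀ T W X Y : K, Pt b T W X Y → Transcendental k T →
      Pl.poles (k := k) T ≤ B ∧ Pl.poles (k := k) W ≤ B

/-! ## D. Finiteness of the maps of bounded degree to `E` -/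

/-- functions of bounded degree are quotients of elements of a finite-dimensional space -/
def ST_B1 : Prop :=
  ∀ (k K : Type) [Field k] [IsAlgClosed k] [CharZero k] [Field K] [Algebra k K], IsFF k K →
    ∀ n : ℤ, ∃ H : Submodule k K, FiniteDimensional k H ∧ ∀ f : K, Pl.poles (k := k) f ≤ n →
      ∃ a ∈ H, ∃ d ∈ H, d ≠ 0 ∧ f = a / d

/-- the differential with coefficient `A` (with respect to `δ`) is regular -/
def RegD {k K : Type} [Field k] [Field K] [Algebra k K] (δ : Derivation k K K) (A : K) : Prop :=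
  ∀ p : Pl k K, p.Ge (-p.rr δ) A

/-- regular differentials -/
def ST_WREG : Prop :=
  ∀ (k K : Type) [Field k] [IsAlgClosed k] [CharZero k] [Field K] [Algebra k K], IsFF k K →
    ∀ δ : Derivation k K K, δ ≠ 0 →
    (∀ T W : K, W ^ 2 = T ^ 3 + 1 → Transcendental k T → RegD δ (δ T / (2 * W))) ∧
    (∃ V : Submodule k K, FiniteDimensional k V ∧ ∀ A, A ∈ V ↔ RegD δ A) ∧
    ∀ τ : K, RegD δ (δ τ) → ∃ c : k, τ = algebraMap k K c

/-- a map to `E` is determined by the differential and one value -/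
def ST_B2 : Prop :=
  ∀ (k K : Type) [Field k] [IsAlgClosed k] [CharZero k] [Field K] [Algebra k K], IsFF k K →
    ∀ δ : Derivation k K K, δ ≠ 0 → ∀ (p : Pl k K) (t0 w0 : k) (T W T' W' : K),
      W ^ 2 = T ^ 3 + 1 → W' ^ 2 = T' ^ 3 + 1 → Transcendental k T → Transcendental k T' →
      δ T / (2 * W) = δ T' / (2 * W') →
      p.M (T - algebraMap k K t0) → p.M (T' - algebraMap k K t0) →
      p.M (W - algebraMap k K w0) → p.M (W' - algebraMap k K w0) → T = T' ∧ W = W'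

/-- Derivations and linear disjointness. -/
def ST_LDD : Prop :=
  ∀ (k K R : Type) [Field k] [IsAlgClosed k] [CharZero k] [Field K] [Field R] [Algebra k K]
    [Algebra k R] [Algebra K R] [IsScalarTower k K R] (F : IntermediateField k R),
    (∀ (n : ℕ) (f : Fin n → K), LinearIndependent k f →
      LinearIndependent F fun i => algebraMap K R (f i)) →
    ∀ α ∈ F, α ∉ Set.range (algebraMap k R) →
      ∃ D : Derivation K R R, (∀ φ ∈ F, D φ ∈ F) ∧ D α = 1

/-- The ultraproduct argument: infinitely many maps to `E` of bounded degree give a nonzero exact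
differential in `V`. -/
def ST_ULT : Prop :=
  ∀ (k K : Type) [Field k] [IsAlgClosed k] [CharZero k] [Field K] [Algebra k K]
    (δ : Derivation k K K) (H V : Submodule k K) [FiniteDimensional k H] [FiniteDimensional k V]
    (T W : ℕ → K), (∀ i, W i ^ 2 = T i ^ 3 + 1) → (∀ i, W i ≠ 0) →
    (∀ i, ∃ a ∈ H, ∃ d ∈ H, d ≠ 0 ∧ T i = a / d) →
    (∀ i, ∃ a ∈ H, ∃ d ∈ H, d ≠ 0 ∧ W i = a / d) →
    (∀ i, δ (T i) / (2 * W i) ∈ V) → Function.Injective (fun i => δ (T i) / (2 * W i)) →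
    ∃ τ : K, δ τ ∈ V ∧ δ τ ≠ 0

/-- finiteness of the pointed maps of bounded degree -/
def ST_BFIN : Prop :=
  ∀ (k K : Type) [Field k] [IsAlgClosed k] [CharZero k] [Field K] [Algebra k K], IsFF k K →
    ∀ (p : Pl k K) (t0 w0 : k) (B : ℤ),
      {v : K × K | v.2 ^ 2 = v.1 ^ 3 + 1 ∧ Transcendental k v.1 ∧ Pl.poles (k := k) v.1 ≤ B ∧
        Pl.poles (k := k) v.2 ≤ B ∧ p.M (v.1 - algebraMap k K t0) ∧
        p.M (v.2 - algebraMap k K w0)}.Finite

/-- The main algebraic result. -/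
def ST_ALG : Prop :=
  ∀ (k0 k K : Type) [Field k0] [IsAlgClosed k0] [Field k] [IsAlgClosed k] [CharZero k] [Field K]
    [Algebra k0 k] [Algebra k K] (b : Fin 10 → k), BD k0 k b → IsFF k K →
    ∀ (p : Pl k K) (t0 w0 : k), {T : K | ∃ W X Y : K, Pt b T W X Y ∧
      p.M (T - algebraMap k K t0) ∧ p.M (W - algebraMap k K w0)}.Finite

end Pool.Agent.Helper8.SPV
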