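import Pool.Agent.Helper8.SPV.Stmts
import Pool.Agent.Helper8.SPV.Defs

/-! # Statements: specialness, at the level of function fields -/

set_option autoImplicit false

namespace Pool.Agent.Helper8.SPV

open IntermediateField (adjoin)

/-! ## E. The generic fibre -/

/-- The elliptic curve `y² = x³ + x + q` over `F`, with function field `L`. -/
structure EL (F L : Type) [Field F] [Field L] [Algebra F L] (q : F) (x y : L) : Prop where
  eq : y ^ 2 = x ^ 3 + x + algebraMap F L q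
  tr : Transcendental F x
  gen : adjoin F {x, y} = ⊤
  disc : 4 + 27 * q ^ 2 ≠ 0

/-- `Df` is the invariant vector field, and `Ds` is the lift of the derivation `δ0` of `F` which
has no poles outside infinity. -/
structure ELD {F L : Type} [Field F] [Field L] [Algebra F L] (q : F) (x y : L)
    (δ0 : Derivation ℤ F F) (Df Ds : Derivation ℤ L L) : Prop where
  Df0 : ∀ c, Df (algebraMap F L c) = 0
  Dfx : Df x = 2 * y
  Dfy : Df y = 3 * x ^ 2 + 1
  Ds0 : ∀ c, Ds (algebraMap F L c) = algebraMap F L (δ0 c)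
  Dsx : Ds x = -algebraMap F L (δ0 q * 6 / (4 + 27 * q ^ 2)) *
    (x ^ 2 - algebraMap F L (3 / 2 * q) * x + algebraMap F L (2 / 3))
  Dsy : Ds y = algebraMap F L (δ0 q * 3 / (4 + 27 * q ^ 2)) *
    (-3 * x + algebraMap F L (9 / 2 * q)) * y

/-- existence of these derivations -/
def ST_ELD : Prop :=
  ∀ (F L : Type) [Field F] [CharZero F] [Field L] [Algebra F L] (q : F) (x y : L),
    EL F L q x y → ∀ δ0 : Derivation ℤ F F, ∃ Df Ds : Derivation ℤ L L, ELD q x y δ0 Df Ds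

/-- a function which is regular everywhere is in `F` -/
def ST_ELREG : Prop :=
  ∀ (F L : Type) [Field F] [CharZero F] [Field L] [Algebra F L] (q : F) (x y : L),
    EL F L q x y → ∀ g : L, (∀ R : ValuationSubring L, (∀ c, algebraMap F L c ∈ R) → R ≠ ⊤ →
      g ∈ R) → ∃ c : F, g = algebraMap F L c

/-- regularity of the derivations outside infinity -/
def ST_ELB1 : Prop :=
  ∀ (F L : Type) [Field F] [CharZero F] [Field L] [Algebra F L] (q : F) (x y : L),
    EL F L q x y → ∀ (δ0 : Derivation ℤ F F) (Df Ds : Derivation ℤ L L), ELD q x y δ0 Df Ds →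
    ∀ R : ValuationSubring L, (∀ c, algebraMap F L c ∈ R) → R ≠ ⊤ → x ∈ R →
      (∀ f ∈ R, Df f ∈ R) ∧ ∀ f ∈ R, Ds f ∈ R

/-- regularity of the derivations at infinity -/
def ST_ELB2 : Prop :=
  ∀ (F L : Type) [Field F] [CharZero F] [Field L] [Algebra F L] (q : F) (x y : L),
    EL F L q x y → ∀ (δ0 : Derivation ℤ F F) (Df Ds : Derivation ℤ L L), ELD q x y δ0 Df Ds →
    ∀ R : ValuationSubring L, (∀ c, algebraMap F L c ∈ R) → R ≠ ⊤ → x ∉ R →
      Df (x / y) ≠ 0 ∧ (∀ f ∈ R, Df f ∈ R) ∧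
        ∀ f ∈ R, Ds f - Ds (x / y) / Df (x / y) * Df f ∈ R

/-- Kodaira-Spencer: there is no global lift -/
def ST_ELKS : Prop :=
  ∀ (F L : Type) [Field F] [CharZero F] [Field L] [Algebra F L] (q : F) (x y : L),
    EL F L q x y → ∀ (δ0 : Derivation ℤ F F) (Df Ds : Derivation ℤ L L), ELD q x y δ0 Df Ds →
    δ0 q ≠ 0 → ∀ h : L,
      (∀ R : ValuationSubring L, (∀ c, algebraMap F L c ∈ R) → R ≠ ⊤ → x ∈ R → h ∈ R) →
      (∀ R : ValuationSubring L, (∀ c, algebraMap F L c ∈ R) → R ≠ ⊤ → x ∉ R →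
        h - Ds (x / y) / Df (x / y) ∈ R) → False

section adm

variable (k L : Type) [Field k] [Field L] [Algebra k L]

/-- What we know about a section `g` of the `m`-th power of a rank one subsheaf generated by `v`:
`g λ(v)^m` is in `R` for all valuation rings `R` and functionals `λ` which are regular on `R`. -/
def Adm (p : ℕ) (v : Om k L p) (m : ℕ) (g : L) : Prop :=
  ∀ R : ValuationSubring L, (∀ c, algebraMap k L c ∈ R) → ∀ lam : Om k L p →ₗ[L] L,
    (∀ ω ∈ forms k L p R.toSubring, lam ω ∈ R) → g * lam v ^ m ∈ R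

end adm

/-- functionals from derivations -/
def ST_FUNC : Prop :=
  ∀ (k L : Type) [Field k] [Field L] [Algebra k L] (p : ℕ) (D : Fin p → Derivation k L L),
    ∃ lam : Om k L p →ₗ[L] L, (∀ f, lam (dd k L p f) = Matrix.det fun i j => D i (f j)) ∧
      ∀ R : ValuationSubring L, (∀ i, ∀ f ∈ R, D i f ∈ R) → ∀ ω ∈ forms k L p R.toSubring,
        lam ω ∈ R

/-- forms of a field of transcendence degree two -/
def ST_OM : Prop :=
  ∀ (k L : Type) [Field k] [CharZero k] [Field L] [Algebra k L] (t x : L),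
    AlgebraicIndependent k ![t, x] → Algebra.IsAlgebraic (adjoin k {t, x}) L →
    (∀ p, 3 ≤ p → ∀ v : Om k L p, v = 0) ∧
    (∀ D1 D2 : Derivation k L L, D1 t * D2 x - D1 x * D2 t ≠ 0 →
      (∀ (lam1 lam2 : Om k L 1 →ₗ[L] L), (∀ f, lam1 (dd k L 1 f) = D1 (f 0)) →
        (∀ f, lam2 (dd k L 1 f) = D2 (f 0)) → ∀ v, lam1 v = 0 → lam2 v = 0 → v = 0) ∧
      ∀ lam : Om k L 2 →ₗ[L] L,
        (∀ f, lam (dd k L 2 f) = D1 (f 0) * D2 (f 1) - D1 (f 1) * D2 (f 0)) →
        ∀ v, lam v = 0 → v = 0)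

/-- Gauss valuations: over every place of `k(t, w)` there is a valuation ring of `L` which is
preserved by some extension of the derivation `δ`. -/
def ST_GAUSS : Prop :=
  ∀ (k L : Type) [Field k] [IsAlgClosed k] [CharZero k] [Field L] [Algebra k L] (b : Fin 10 → k)
    (t w x y : L), ES b t w x y → ∀ q : Pl k (adjoin k {t, w}),
    ∃ R : ValuationSubring L, R.comap (algebraMap (adjoin k {t, w}) L) = q.O ∧
      ∃ D : Derivation k L L, D t = 2 * w ∧ D w = 3 * t ^ 2 ∧ ∀ f ∈ R, D f ∈ R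

/-- the field `k(t, w)` -/
def ST_BASE : Prop :=
  ∀ (k L : Type) [Field k] [IsAlgClosed k] [CharZero k] [Field L] [Algebra k L] (b : Fin 10 → k)
    (t w x y : L), ES b t w x y → b 9 ≠ 0 →
    IsFF k (adjoin k {t, w}) ∧ ∃ tF wF qF : adjoin k {t, w}, (tF : L) = t ∧ (wF : L) = w ∧
      (qF : L) = Qf b t ∧ EL (adjoin k {t, w}) L qF x y ∧
      ∃ δ0 : Derivation k (adjoin k {t, w}) (adjoin k {t, w}),
        δ0 tF = 2 * wF ∧ δ0 wF = 3 * tF ^ 2 ∧ δ0 qF ≠ 0

/-- `p = 1` -/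
def ST_SPEC1 : Prop :=
  ∀ (k L : Type) [Field k] [IsAlgClosed k] [CharZero k] [Field L] [Algebra k L] (b : Fin 10 → k)
    (t w x y : L), ES b t w x y → b 9 ≠ 0 → ∀ v : Om k L 1, v ≠ 0 → ∀ m : ℕ, 1 ≤ m →
    ∀ g1 g2 : L, g1 ≠ 0 → g2 ≠ 0 → Adm k L 1 v m g1 → Adm k L 1 v m g2 →
      ∃ c : k, g1 / g2 = algebraMap k L c

/-- `p = 2` -/
def ST_SPEC2 : Prop :=
  ∀ (k L : Type) [Field k] [IsAlgClosed k] [CharZero k] [Field L] [Algebra k L] (b : Fin 10 → k)
    (t w x y : L), ES b t w x y → b 9 ≠ 0 → ∀ v : Om k L 2, v ≠ 0 → ∀ m : ℕ, 1 ≤ m →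
    ∀ g1 g2 : L, g1 ≠ 0 → g2 ≠ 0 → Adm k L 2 v m g1 → Adm k L 2 v m g2 →
      g1 / g2 ∈ adjoin k {t, w}

end Pool.Agent.Helper8.SPV
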