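import Pool.Agent.Helper8.SPV.Stmts2

/-! # Statements: schemes -/

set_option autoImplicit false

namespace Pool.Agent.Helper8.SPV

open IntermediateField (adjoin)
open AlgebraicGeometry CategoryTheory CategoryTheory.Limits
open Pool.Agent.Helper71 (PP PPtoSpec)

/-! ## F. The four charts -/

section charts

variable (k : Type) {L : Type} [Field k] [Field L] [Algebra k L]

/-- the coordinates on the four charts -/
noncomputable def co (t w x y : L) : Fin 4 → Fin 4 → L :=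
  ![![t, w, x, y], ![t, w, x / y, 1 / y], ![t / w, 1 / w, x / w ^ 2, y / w ^ 3],
    ![t / w, 1 / w, x * w / y, w ^ 3 / y]]

/-- the coordinate rings of the four charts -/
noncomputable def ch (t w x y : L) (i : Fin 4) : Subalgebra k L :=
  Algebra.adjoin k (Set.range (co t w x y i))

variable {k}

open MvPolynomial in
/-- `Q(X_0)` -/
noncomputable def QP (b : Fin 10 → k) : MvPolynomial (Fin 4) k :=
  ∑ j : Fin 10, C (b j) * X 0 ^ (j : ℕ)

open MvPolynomial in
/-- `Q` at infinity, a polynomial in `X_0 = t/w`, `X_1 = 1/w` -/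
noncomputable def QI (b : Fin 10 → k) : MvPolynomial (Fin 4) k :=
  C (b 0) * X 1 ^ 6 + C (b 1) * X 0 * X 1 ^ 5 + C (b 2) * X 0 ^ 2 * X 1 ^ 4 +
    C (b 3) * X 0 ^ 3 * X 1 ^ 3 + C (b 4) * X 0 ^ 4 * X 1 ^ 2 + C (b 5) * X 0 ^ 5 * X 1 +
    C (b 6) * X 0 ^ 6 + C (b 7) * X 0 ^ 4 * (1 - X 1 ^ 2) + C (b 8) * X 0 ^ 2 * (1 - X 1 ^ 2) ^ 2 +
    C (b 9) * (1 - X 1 ^ 2) ^ 3

open MvPolynomial in
/-- the equations of the four charts -/
noncomputable def fe (b : Fin 10 → k) : Fin 4 → Fin 2 → MvPolynomial (Fin 4) k :=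
  ![![X 1 ^ 2 - X 0 ^ 3 - 1, X 3 ^ 2 - X 2 ^ 3 - X 2 - QP b],
    ![X 1 ^ 2 - X 0 ^ 3 - 1, X 3 - X 2 ^ 3 - X 2 * X 3 ^ 2 - QP b * X 3 ^ 3],
    ![X 1 - X 0 ^ 3 - X 1 ^ 3, X 3 ^ 2 - X 2 ^ 3 - X 1 ^ 4 * X 2 - QI b],
    ![X 1 - X 0 ^ 3 - X 1 ^ 3, X 3 - X 2 ^ 3 - X 1 ^ 4 * X 2 * X 3 ^ 2 - QI b * X 3 ^ 3]]

end charts

/-- existence of the function field -/
def ST_ESEX : Prop :=
  ∀ (k : Type) [Field k] [IsAlgClosed k] [CharZero k] (b : Fin 10 → k),
    ∃ (L : Type) (_ : Field L) (_ : Algebra k L) (t w x y : L), ES b t w x y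

/-- the coordinates satisfy the equations -/
def ST_EQ : Prop :=
  ∀ (k L : Type) [Field k] [IsAlgClosed k] [CharZero k] [Field L] [Algebra k L] (b : Fin 10 → k)
    (t w x y : L), ES b t w x y → w ≠ 0 ∧ y ≠ 0 ∧
      ∀ i j, MvPolynomial.aeval (co t w x y i) (fe b i j) = 0

/-- presentation of the `i`-th chart -/
def PRES (i : Fin 4) : Prop :=
  ∀ (k L : Type) [Field k] [IsAlgClosed k] [CharZero k] [Field L] [Algebra k L] (b : Fin 10 → k)
    (t w x y : L), ES b t w x y → ∀ P : MvPolynomial (Fin 4) k,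
      MvPolynomial.aeval (co t w x y i) P = 0 → P ∈ Ideal.span (Set.range (fe b i))

def ST_PRES0 : Prop := PRES 0
def ST_PRES1 : Prop := PRES 1
def ST_PRES2 : Prop := PRES 2
def ST_PRES3 : Prop := PRES 3

open MvPolynomial in
/-- the Jacobian criterion -/
def ST_JAC : Prop :=
  ∀ (k L : Type) [Field k] [IsAlgClosed k] [CharZero k] [Field L] [Algebra k L] (a : Fin 4 → L)
    (f : Fin 2 → MvPolynomial (Fin 4) k) (h : MvPolynomial (Fin 4) k),
    (∀ j, aeval a (f j) = 0) →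
    (∀ P : MvPolynomial (Fin 4) k, aeval a P = 0 → P ∈ Ideal.span (Set.range f)) →
    (aeval a h ≠ 0 → Algebra.Smooth k (Algebra.adjoin k (Set.range a ∪ {(aeval a h)⁻¹}))) →
    (∀ P0 : Fin 4 → k, (∀ j, eval P0 (f j) = 0) → eval P0 h ≠ 0 ∨ ∃ i1 i2,
      eval P0 (pderiv i1 (f 0) * pderiv i2 (f 1) - pderiv i2 (f 0) * pderiv i1 (f 1)) ≠ 0) →
    Algebra.Smooth k (Algebra.adjoin k (Set.range a))

/-- the charts are smooth -/
def ST_SM : Prop :=
  ∀ (k0 k L : Type) [Field k0] [IsAlgClosed k0] [Field k] [IsAlgClosed k] [CharZero k] [Field L]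
    [Algebra k0 k] [Algebra k L] (b : Fin 10 → k) (t w x y : L), BD k0 k b → ES b t w x y →
    ∀ i, Algebra.Smooth k (ch k t w x y i)

/-- every valuation ring contains one of the four charts -/
def ST_COVER : Prop :=
  ∀ (k L : Type) [Field k] [IsAlgClosed k] [CharZero k] [Field L] [Algebra k L] (b : Fin 10 → k)
    (t w x y : L), ES b t w x y → ∀ R : ValuationSubring L, (∀ c, algebraMap k L c ∈ R) →
      ∃ i, ∀ a ∈ ch k t w x y i, a ∈ R

/-! ## G. The projective model -/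

/-- a projective variety covered by the four charts -/
structure Model {k L : Type} [Field k] [Field L] [Algebra k L] (t w x y : L) {X : Scheme.{0}}
    (s : X ⟶ Spec (.of k)) (c : ∀ i, Spec (.of (ch k t w x y i)) ⟶ X) : Prop where
  proj : IsProjVar s
  isOpen : ∀ i, IsOpenImmersion (c i)
  isOver : ∀ i, c i ≫ s = Spec.map (CommRingCat.ofHom (algebraMap k (ch k t w x y i)))
  glue : ∀ i j, Spec.map (CommRingCat.ofHom (algebraMap (ch k t w x y i) L)) ≫ c i =
    Spec.map (CommRingCat.ofHom (algebraMap (ch k t w x y j) L)) ≫ c j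
  cover : ∀ p : X, ∃ i, p ∈ Set.range (c i)

def ST_MODEL : Prop :=
  ∀ (k L : Type) [Field k] [IsAlgClosed k] [CharZero k] [Field L] [Algebra k L] (b : Fin 10 → k)
    (t w x y : L), ES b t w x y →
    (∀ R : ValuationSubring L, (∀ c, algebraMap k L c ∈ R) →
      ∃ i, ∀ a ∈ ch k t w x y i, a ∈ R) →
    ∃ (X : Scheme.{0}) (s : X ⟶ Spec (.of k)) (c : ∀ i, Spec (.of (ch k t w x y i)) ⟶ X),
      Model t w x y s c

/-- the model is smooth -/
def ST_SMX : Prop :=
  ∀ (k L : Type) [Field k] [IsAlgClosed k] [CharZero k] [Field L] [Algebra k L]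
    (t w x y : L) (X : Scheme.{0}) (s : X ⟶ Spec (.of k))
    (c : ∀ i, Spec (.of (ch k t w x y i)) ⟶ X), Model t w x y s c →
    (∀ i, Algebra.Smooth k (ch k t w x y i)) → Smooth s

/-- the identity is a desingularization -/
def ST_IDDES : Prop :=
  ∀ (k : Type) [Field k] (X : Scheme.{0}) (s : X ⟶ Spec (.of k)), IsProjVar s → Smooth s →
    IsDesing s (𝟙 X)

/-- a desingularization of a projective variety is proper over the field -/
def ST_DPROP : Prop :=
  ∀ (k : Type) [Field k] (X X' : Scheme.{0}) (s : X ⟶ Spec (.of k)) (π : X' ⟶ X),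
    IsProjVar s → IsDesing s π → IsProper (π ≫ s)

/-- the function field of a desingularization of the model -/
def ST_GENX : Prop :=
  ∀ (k L : Type) [Field k] [IsAlgClosed k] [CharZero k] [Field L] [Algebra k L] (b : Fin 10 → k)
    (t w x y : L) (X : Scheme.{0}) (s : X ⟶ Spec (.of k))
    (c : ∀ i, Spec (.of (ch k t w x y i)) ⟶ X), ES b t w x y → Model t w x y s c →
    ∀ (X' : Scheme.{0}) (π : X' ⟶ X) (h : IsDesing s π),
      haveI := h.integral
      ∃ t' w' x' y' : FF (π ≫ s), ES b t' w' x' y'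

/-! ## H. Valuations and forms on a smooth proper scheme -/

/-- the center of a valuation ring -/
def ST_CENTER : Prop :=
  ∀ (k : Type) [Field k] (X : Scheme.{0}) [IsIntegral X] (s : X ⟶ Spec (.of k)) [IsProper s]
    (R : ValuationSubring (FF s)), (∀ c, algebraMap k (FF s) c ∈ R) →
    ∃ x : X, ∀ f ∈ locRing s x, f ∈ R

/-- algebraic Hartogs on a smooth scheme -/
def ST_HARTOGS : Prop :=
  ∀ (k : Type) [Field k] [CharZero k] (X : Scheme.{0}) [IsIntegral X] (s : X ⟶ Spec (.of k))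
    [Smooth s] (x : X) (a : FF s),
    (∀ y : X, y ⤳ x → ringKrullDim (X.presheaf.stalk y) = 1 → a ∈ locRing s y) →
      a ∈ locRing s x

/-- the local rings at points of codimension one are discrete valuation rings -/
def ST_DVR1 : Prop :=
  ∀ (k : Type) [Field k] [CharZero k] (X : Scheme.{0}) [IsIntegral X] (s : X ⟶ Spec (.of k))
    [Smooth s] (y : X), ringKrullDim (X.presheaf.stalk y) = 1 →
    IsDiscreteValuationRing (locRing s y) ∧ IsFractionRing (locRing s y) (FF s)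

/-- the stalks of the sheaf of forms are free, compatibly with localization -/
def ST_FREE : Prop :=
  ∀ (k : Type) [Field k] [CharZero k] (X : Scheme.{0}) [IsIntegral X] (s : X ⟶ Spec (.of k))
    [Smooth s] (p : ℕ) (x : X), ∃ (n : ℕ) (e : Fin n → Om k (FF s) p),
    LinearIndependent (FF s) e ∧ ∀ y : X, y ⤳ x →
      forms k (FF s) p (locRing s y) = Submodule.span (locRing s y) (Set.range e)

/-- sections of powers of rank one subsheaves are admissible -/
def ST_ADM : Prop :=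
  ∀ (k : Type) [Field k] [CharZero k] (X : Scheme.{0}) [IsIntegral X] (s : X ⟶ Spec (.of k))
    [Smooth s] [IsProper s] (p : ℕ) (F : RankOneSub s p) (m : ℕ), 1 ≤ m →
    ∀ g ∈ F.sections m, Adm k (FF s) p F.gen m g

/-- the condition of Bogomolov and Campana on a smooth proper model -/
def ST_NB : Prop :=
  ∀ (k : Type) [Field k] [IsAlgClosed k] [CharZero k] (b : Fin 10 → k), b 9 ≠ 0 →
    ∀ (X : Scheme.{0}) [IsIntegral X] (s : X ⟶ Spec (.of k)) [Smooth s] [IsProper s]
      (t w x y : FF s), ES b t w x y → NoBogomolov s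

/-! ## I. Curves -/

/-- the function field of a curve -/
def ST_GS1 : Prop :=
  ∀ (k : Type) [Field k] [IsAlgClosed k] [CharZero k] (C : Scheme.{0}) [IsIntegral C]
    (sC : C ⟶ Spec (.of k)), IsCurve sC → IsFF k (FF sC)

/-- the point of `C` under a `k`-point -/
noncomputable def cpt {k : Type} [Field k] {C : Scheme.{0}} (c : Spec (.of k) ⟶ C) : C :=
  c (IsLocalRing.closedPoint k)

/-- the place of a point -/
def ST_GS2 : Prop :=
  ∀ (k : Type) [Field k] [IsAlgClosed k] [CharZero k] (C : Scheme.{0}) [IsIntegral C]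
    (sC : C ⟶ Spec (.of k)), IsCurve sC → ∀ c : Spec (.of k) ⟶ C, c ≫ sC = 𝟙 _ →
    ∃ p : Pl k (FF sC), ∀ f ∈ locRing sC (cpt c), f ∈ p.O ∧
      (f⁻¹ ∉ locRing sC (cpt c) → p.M f)

/-- the generic point -/
noncomputable def gpt {k : Type} [Field k] {C : Scheme.{0}} [IsIntegral C]
    (sC : C ⟶ Spec (.of k)) : Spec (.of (FF sC)) ⟶ C :=
  C.fromSpecStalk (genericPoint C)

/-- a pointed morphism from a curve to a variety gives a point of the variety over the function
field -/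
def ST_GS3 : Prop :=
  ∀ (k : Type) [Field k] [IsAlgClosed k] [CharZero k] (C : Scheme.{0}) [IsIntegral C]
    (sC : C ⟶ Spec (.of k)), IsCurve sC →
    ∀ (A : Type) [CommRing A] [Algebra k A] (X : Scheme.{0}) (s : X ⟶ Spec (.of k))
      (j : Spec (.of A) ⟶ X) [IsOpenImmersion j],
      j ≫ s = Spec.map (CommRingCat.ofHom (algebraMap k A)) →
    ∀ (c : Spec (.of k) ⟶ C) (f : C ⟶ X) (ε : A →ₐ[k] k), c ≫ sC = 𝟙 _ → f ≫ s = sC →
      c ≫ f = Spec.map (CommRingCat.ofHom (ε : A →+* k)) ≫ j →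
    ∃ φ : A →ₐ[k] FF sC, gpt sC ≫ f = Spec.map (CommRingCat.ofHom (φ : A →+* FF sC)) ≫ j ∧
      ∀ a : A, φ a - algebraMap k (FF sC) (ε a) ∈ locRing sC (cpt c) ∧
        (φ a - algebraMap k (FF sC) (ε a))⁻¹ ∉ locRing sC (cpt c) ∨
        φ a - algebraMap k (FF sC) (ε a) = 0

/-- if a function takes only finitely many values in `K(C)` then the graphs are not dense -/
def ST_GS4 : Prop :=
  ∀ (k : Type) [Field k] [IsAlgClosed k] [CharZero k] (C : Scheme.{0}) [IsIntegral C]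
    (sC : C ⟶ Spec (.of k)), IsCurve sC →
    ∀ (A : Type) [CommRing A] [IsDomain A] [Algebra k A] [Algebra.FiniteType k A]
      (X : Scheme.{0}) [IsIntegral X] (s : X ⟶ Spec (.of k)) [IsSeparated s]
      (j : Spec (.of A) ⟶ X) [IsOpenImmersion j],
      j ≫ s = Spec.map (CommRingCat.ofHom (algebraMap k A)) →
    ∀ (f : ℕ → (C ⟶ X)) (hf : ∀ i, 𝟙 C ≫ sC = f i ≫ s) (φ : ℕ → (A →ₐ[k] FF sC)),
      (∀ i, gpt sC ≫ f i = Spec.map (CommRingCat.ofHom (φ i : A →+* FF sC)) ≫ j) →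
    ∀ a : A, Transcendental k a → (Set.range fun i => φ i a).Finite →
      closure (⋃ i, Set.range (pullback.lift (𝟙 C) (f i) (hf i))) ≠ Set.univ

/-- the model is not geometrically-special -/
def ST_NGS : Prop :=
  ∀ (k0 k L : Type) [Field k0] [IsAlgClosed k0] [Field k] [IsAlgClosed k] [CharZero k] [Field L]
    [Algebra k0 k] [Algebra k L] (b : Fin 10 → k) (t w x y : L) (X : Scheme.{0})
    (s : X ⟶ Spec (.of k)) (c : ∀ i, Spec (.of (ch k t w x y i)) ⟶ X), BD k0 k b →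
    ES b t w x y → Model t w x y s c → ¬ IsGeomSpecial s

/-- The theorem. -/
def ST_FINAL : Prop :=
  ∀ (k : Type) [Field k] [IsAlgClosed k] [CharZero k], 10 ≤ Algebra.trdeg ℚ k →
    ∃ (X : Scheme.{0}) (s : X ⟶ Spec (.of k)),
      IsProjVar s ∧ Smooth s ∧ IsSpecial s ∧ ¬ IsGeomSpecial s

end Pool.Agent.Helper8.SPV
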